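import Mathlib

set_option autoImplicit false

namespace Pool.Agent.Lib.NC4b

/-- Finite simple graphs. -/
abbrev FinGraph : Type := Σ n : ℕ, SimpleGraph (Fin n)

/-- Drawing in the plane: vertices are distinct points, edges are simple arcs whose interiors
avoid the vertices and each other. -/
def Planar (G : FinGraph) : Prop :=
  ∃ f : Fin G.1 → ℝ × ℝ, Function.Injective f ∧ ∃ γ : (i j : Fin G.1) → Path (f i) (f j),
    (∀ i j, G.2.Adj i j → i < j → Function.Injective (γ i j)) ∧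
    (∀ i j, G.2.Adj i j → i < j → ∀ t : unitInterval, (t : ℝ) ∈ Set.Ioo (0 : ℝ) 1 →
      ∀ v, γ i j t ≠ f v) ∧
    ∀ i j k l, G.2.Adj i j → i < j → G.2.Adj k l → k < l → (i ≠ k ∨ j ≠ l) →
      ∀ s t : unitInterval, (s : ℝ) ∈ Set.Ioo (0 : ℝ) 1 → (t : ℝ) ∈ Set.Ioo (0 : ℝ) 1 →
        γ i j s ≠ γ k l t

/-- `H` is an induced minor of `G`: there are pairwise disjoint connected branch sets in `G`,
one for each vertex of `H`, joined by an edge of `G` exactly when the vertices are adjacent. -/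
def IndMinor (H G : FinGraph) : Prop :=
  ∃ B : Fin H.1 → Set (Fin G.1), (∀ i, (G.2.induce (B i)).Connected) ∧
    (∀ i j, i ≠ j → Disjoint (B i) (B j)) ∧
    ∀ i j, i ≠ j → (H.2.Adj i j ↔ ∃ u ∈ B i, ∃ v ∈ B j, G.2.Adj u v)

end Pool.Agent.Lib.NC4b
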