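import Mathlib
import Pool.Agent.Lib.NC4b.Defs

set_option autoImplicit false

namespace Pool.Agent.Lib.NC4b

/-- walks inside a set -/
def RT {V : Type} (G : SimpleGraph V) (S : Set V) : V → V → Prop :=
  Relation.ReflTransGen fun a b => G.Adj a b ∧ a ∈ S ∧ b ∈ S

section
variable {V V' V'' : Type} {G : SimpleGraph V} {G' : SimpleGraph V'} {G'' : SimpleGraph V''}

lemma RT.refl (S : Set V) (x : V) : RT G S x x := Relation.ReflTransGen.refl

lemma RT.trans {S : Set V} {x y z : V} (h : RT G S x y) (h' : RT G S y z) : RT G S x z :=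
  Relation.ReflTransGen.trans h h'

lemma RT.single {S : Set V} {x y : V} (h : G.Adj x y) (hx : x ∈ S) (hy : y ∈ S) : RT G S x y :=
  Relation.ReflTransGen.single ⟨h, hx, hy⟩

lemma RT.mono {S T : Set V} (hST : S ⊆ T) {x y : V} (h : RT G S x y) : RT G T x y := by
  induction h with
  | refl => exact RT.refl _ _
  | tail _ hbc ih => exact ih.trans (RT.single hbc.1 (hST hbc.2.1) (hST hbc.2.2))

lemma RT.symm {S : Set V} {x y : V} (h : RT G S x y) : RT G S y x := by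
  induction h with
  | refl => exact RT.refl _ _
  | tail _ hbc ih => exact (RT.single hbc.1.symm hbc.2.2 hbc.2.1).trans ih

lemma RT.inv {S : Set V} {x y : V} (h : RT G S x y) (P : V → Prop)
    (hP : ∀ a b, a ∈ S → b ∈ S → G.Adj a b → P a → P b) (hx : P x) : P y := by
  induction h with
  | refl => exact hx
  | tail _ hbc ih => exact hP _ _ hbc.2.1 hbc.2.2 hbc.1 ih

lemma RT.mem {S : Set V} {x y : V} (h : RT G S x y) (hx : x ∈ S) : y ∈ S :=
  h.inv (· ∈ S) (fun _ _ _ hb _ _ => hb) hx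

lemma RT.self {S : Set V} {x y : V} (h : RT G S x y) : RT G {z | RT G S x z} x y := by
  induction h with
  | refl => exact RT.refl _ _
  | tail hab hbc ih => exact ih.trans (RT.single hbc.1 hab (Relation.ReflTransGen.tail hab hbc))

lemma conn_of_rt {S : Set V} (hne : S.Nonempty) (h : ∀ x ∈ S, ∀ y ∈ S, RT G S x y) :
    (G.induce S).Connected := by
  have : Nonempty S := hne.to_subtype
  refine ⟨fun a b => ?_⟩
  have key : ∀ y, RT G S a.1 y → ∀ hy : y ∈ S, (G.induce S).Reachable a ⟨y, hy⟩ := by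
    intro y hy
    induction hy with
    | refl => exact fun _ => SimpleGraph.Reachable.refl _
    | tail _ hbc ih =>
      exact fun hy => (ih hbc.2.1).trans (SimpleGraph.Adj.reachable (by simpa using hbc.1))
  exact key b.1 (h _ a.2 _ b.2) b.2

lemma rt_of_conn {S : Set V} (h : (G.induce S).Connected) (x : V) (hx : x ∈ S) (y : V)
    (hy : y ∈ S) : RT G S x y := by
  have key : ∀ b : S, Relation.ReflTransGen (G.induce S).Adj ⟨x, hx⟩ b → RT G S x b.1 := by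
    intro b hb
    induction hb with
    | refl => exact RT.refl _ _
    | @tail c d _ hcd ih => exact ih.trans (RT.single (by simpa using hcd) c.2 d.2)
  exact key ⟨y, hy⟩ ((SimpleGraph.reachable_iff_reflTransGen _ _).1 (h.preconnected _ _))

end

/-- marked induced-minor model given by the partial map `φ` from the big graph -/
structure IsMod {V V' : Type} (G : SimpleGraph V) (U : Set V) (mk : V → Prop)
    (G' : SimpleGraph V') (U' : Set V') (mk' : V' → Prop) (φ : V' → Option V) : Prop where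
  dom : ∀ x u, φ x = some u → x ∈ U' ∧ u ∈ U
  surj : ∀ u ∈ U, ∃ x, φ x = some u
  conn : ∀ x y u, φ x = some u → φ y = some u → RT G' {z | φ z = some u} x y
  adj1 : ∀ u ∈ U, ∀ v ∈ U, G.Adj u v → ∃ x y, φ x = some u ∧ φ y = some v ∧ G'.Adj x y
  adj2 : ∀ x y u v, φ x = some u → φ y = some v → G'.Adj x y → u ≠ v → G.Adj u v
  mk1 : ∀ u ∈ U, mk u → ∃ x, φ x = some u ∧ mk' x
  mk2 : ∀ x u, φ x = some u → mk' x → mk u

section
variable {V V' V'' : Type} {G : SimpleGraph V} {G' : SimpleGraph V'} {G'' : SimpleGraph V''}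
  {U : Set V} {U' : Set V'} {U'' : Set V''} {mk : V → Prop} {mk' : V' → Prop} {mk'' : V'' → Prop}

lemma IsMod.of_inj (e : V → V') (he : ∀ u ∈ U, ∀ v ∈ U, e u = e v → u = v)
    (hU : ∀ u ∈ U, e u ∈ U') (ha : ∀ u ∈ U, ∀ v ∈ U, G.Adj u v ↔ G'.Adj (e u) (e v))
    (hm : ∀ u ∈ U, mk u ↔ mk' (e u)) :
    ∃ φ, IsMod G U mk G' U' mk' φ ∧ ∀ x u, φ x = some u ↔ u ∈ U ∧ e u = x := by
  classical
  let φ : V' → Option V := fun x => if h : ∃ u ∈ U, e u = x then some h.choose else none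
  have hφ : ∀ x u, φ x = some u ↔ u ∈ U ∧ e u = x := by
    intro x u
    by_cases h : ∃ u ∈ U, e u = x
    · simp only [φ, dif_pos h, Option.some.injEq]
      constructor
      · rintro rfl
        exact h.choose_spec
      · rintro ⟨h1, h2⟩
        exact he _ h.choose_spec.1 _ h1 (h.choose_spec.2.trans h2.symm)
    · simp only [φ, dif_neg h]
      exact ⟨fun h' => by simp at h', fun h' => absurd ⟨u, h'⟩ h⟩
  refine ⟨φ, ⟨?_, ?_, ?_, ?_, ?_, ?_, ?_⟩, hφ⟩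
  · intro x u h
    obtain ⟨h1, rfl⟩ := (hφ _ _).1 h
    exact ⟨hU _ h1, h1⟩
  · exact fun u hu => ⟨e u, (hφ _ _).2 ⟨hu, rfl⟩⟩
  · intro x y u h h'
    obtain ⟨-, rfl⟩ := (hφ _ _).1 h
    obtain ⟨-, rfl⟩ := (hφ _ _).1 h'
    exact RT.refl _ _
  · exact fun u hu v hv h => ⟨e u, e v, (hφ _ _).2 ⟨hu, rfl⟩, (hφ _ _).2 ⟨hv, rfl⟩,
      (ha _ hu _ hv).1 h⟩
  · intro x y u v h h' hxy _
    obtain ⟨h1, rfl⟩ := (hφ _ _).1 h
    obtain ⟨h2, rfl⟩ := (hφ _ _).1 h'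
    exact (ha _ h1 _ h2).2 hxy
  · exact fun u hu h => ⟨e u, (hφ _ _).2 ⟨hu, rfl⟩, (hm _ hu).1 h⟩
  · intro x u h h'
    obtain ⟨h1, rfl⟩ := (hφ _ _).1 h
    exact (hm _ h1).2 h'

lemma IsMod.refl : ∃ φ, IsMod G U mk G U mk φ ∧ ∀ x ∈ U, φ x = some x := by
  obtain ⟨φ, h, h'⟩ := IsMod.of_inj (G := G) (G' := G) (U := U) (U' := U) (mk := mk) (mk' := mk) id
    (fun _ _ _ _ h => h) (fun _ h => h) (fun _ _ _ _ => Iff.rfl) (fun _ _ => Iff.rfl)
  exact ⟨φ, h, fun x hx => (h' _ _).2 ⟨hx, rfl⟩⟩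

lemma IsMod.mono {φ : V' → Option V} (h : IsMod G U mk G' U' mk' φ) {W : Set V'} (hW : U' ⊆ W) :
    IsMod G U mk G' W mk' φ :=
  ⟨fun x u hx => ⟨hW (h.dom x u hx).1, (h.dom x u hx).2⟩, h.surj, h.conn, h.adj1, h.adj2,
    h.mk1, h.mk2⟩

lemma IsMod.lift {ψ : V'' → Option V'} (h : IsMod G' U' mk' G'' U'' mk'' ψ) {S : Set V'}
    (hS : S ⊆ U') {a b : V'} (hab : RT G' S a b) (ha : a ∈ S) :
    ∀ x y, ψ x = some a → ψ y = some b → RT G'' {z | ∃ c ∈ S, ψ z = some c} x y := by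
  induction hab with
  | refl => exact fun x y hx hy => (h.conn x y a hx hy).mono fun z hz => by exact ⟨a, ha, hz⟩
  | @tail c d _ hcd ih =>
    intro x y hx hy
    obtain ⟨p, q, hp, hq, hpq⟩ := h.adj1 c (hS hcd.2.1) d (hS hcd.2.2) hcd.1
    refine (ih x p hx hp).trans ((RT.single hpq (by exact ⟨c, hcd.2.1, hp⟩)
      (by exact ⟨d, hcd.2.2, hq⟩)).trans ?_)
    exact (h.conn q y d hq hy).mono fun z hz => by exact ⟨d, hcd.2.2, hz⟩

lemma IsMod.trans {φ : V' → Option V} {ψ : V'' → Option V'} (h : IsMod G U mk G' U' mk' φ)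
    (h' : IsMod G' U' mk' G'' U'' mk'' ψ) :
    IsMod G U mk G'' U'' mk'' fun x => (ψ x).bind φ := by
  refine ⟨?_, ?_, ?_, ?_, ?_, ?_, ?_⟩
  · intro x u hx
    obtain ⟨a, ha, hu⟩ := Option.bind_eq_some_iff.1 hx
    exact ⟨(h'.dom _ _ ha).1, (h.dom _ _ hu).2⟩
  · intro u hu
    obtain ⟨a, ha⟩ := h.surj u hu
    obtain ⟨x, hx⟩ := h'.surj a (h.dom _ _ ha).1
    exact ⟨x, Option.bind_eq_some_iff.2 ⟨a, hx, ha⟩⟩
  · intro x y u hx hy
    obtain ⟨a, ha, hu⟩ := Option.bind_eq_some_iff.1 hx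
    obtain ⟨b, hb, hv⟩ := Option.bind_eq_some_iff.1 hy
    refine (h'.lift (fun c hc => (h.dom _ _ hc).1) (h.conn a b u hu hv) hu x y ha hb).mono ?_
    rintro z ⟨c, hc, hz⟩
    exact Option.bind_eq_some_iff.2 ⟨c, hz, hc⟩
  · intro u hu v hv huv
    obtain ⟨a, b, ha, hb, hab⟩ := h.adj1 u hu v hv huv
    obtain ⟨x, y, hx, hy, hxy⟩ := h'.adj1 a (h.dom _ _ ha).1 b (h.dom _ _ hb).1 hab
    exact ⟨x, y, Option.bind_eq_some_iff.2 ⟨a, hx, ha⟩, Option.bind_eq_some_iff.2 ⟨b, hy, hb⟩, hxy⟩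
  · intro x y u v hx hy hxy huv
    obtain ⟨a, ha, hu⟩ := Option.bind_eq_some_iff.1 hx
    obtain ⟨b, hb, hv⟩ := Option.bind_eq_some_iff.1 hy
    have hab : a ≠ b := by
      rintro rfl
      exact huv (Option.some.inj (hu.symm.trans hv))
    exact h.adj2 a b u v hu hv (h'.adj2 x y a b ha hb hxy hab) huv
  · intro u hu hm
    obtain ⟨a, ha, hm'⟩ := h.mk1 u hu hm
    obtain ⟨x, hx, hm''⟩ := h'.mk1 a (h.dom _ _ ha).1 hm'
    exact ⟨x, Option.bind_eq_some_iff.2 ⟨a, hx, ha⟩, hm''⟩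
  · intro x u hx hm
    obtain ⟨a, ha, hu⟩ := Option.bind_eq_some_iff.1 hx
    exact h.mk2 a u hu (h'.mk2 x a ha hm)

lemma IsMod.glue {U1 U2 : Set V} {W1 W2 : Set V'} {φ1 φ2 : V' → Option V}
    (h1 : IsMod G U1 mk G' W1 mk' φ1) (h2 : IsMod G U2 mk G' W2 mk' φ2)
    (hE : ∀ u ∈ U1 ∪ U2, ∀ v ∈ U1 ∪ U2, G.Adj u v → (u ∈ U1 ∧ v ∈ U1) ∨ (u ∈ U2 ∧ v ∈ U2))
    (hE' : ∀ u ∈ W1 ∪ W2, ∀ v ∈ W1 ∪ W2, G'.Adj u v → (u ∈ W1 ∧ v ∈ W1) ∨ (u ∈ W2 ∧ v ∈ W2))
    (hag : ∀ x ∈ W1, x ∈ W2 → φ1 x = φ2 x)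
    (hon : ∀ u ∈ U1, u ∈ U2 → ∃ x, φ1 x = some u ∧ φ2 x = some u) :
    ∃ φ, IsMod G (U1 ∪ U2) mk G' (W1 ∪ W2) mk' φ ∧ (∀ x ∈ W1, φ x = φ1 x) ∧
      ∀ x ∈ W2, φ x = φ2 x := by
  let φ : V' → Option V := fun x => (φ1 x).or (φ2 x)
  have e1 : ∀ x ∈ W1, φ x = φ1 x := by
    intro x hx
    rcases hh : φ2 x with _ | u
    · simp [φ, hh]
    · have := hag x hx (h2.dom _ _ hh).1
      simp [φ, this]
  have e2 : ∀ x ∈ W2, φ x = φ2 x := by
    intro x hx
    rcases hh : φ1 x with _ | u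
    · simp [φ, hh]
    · have := hag x (h1.dom _ _ hh).1 hx
      simp [φ, this]
  have i1 : ∀ x u, φ1 x = some u → φ x = some u := fun x u h => by
    rw [e1 x (h1.dom _ _ h).1, h]
  have i2 : ∀ x u, φ2 x = some u → φ x = some u := fun x u h => by
    rw [e2 x (h2.dom _ _ h).1, h]
  have o : ∀ x u, φ x = some u → φ1 x = some u ∨ φ2 x = some u := by
    intro x u h
    rcases hh : φ1 x with _ | v
    · right
      simpa [φ, hh] using h
    · left
      simpa [φ, hh] using h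
  have d : ∀ x u, φ x = some u → x ∈ W1 ∪ W2 ∧ u ∈ U1 ∪ U2 := by
    intro x u h
    rcases o x u h with h | h
    · exact ⟨Or.inl (h1.dom _ _ h).1, Or.inl (h1.dom _ _ h).2⟩
    · exact ⟨Or.inr (h2.dom _ _ h).1, Or.inr (h2.dom _ _ h).2⟩
  have c1 : ∀ x y u, φ1 x = some u → φ1 y = some u → RT G' {z | φ z = some u} x y :=
    fun x y u hx hy => (h1.conn x y u hx hy).mono fun z hz => i1 z u hz
  have c2 : ∀ x y u, φ2 x = some u → φ2 y = some u → RT G' {z | φ z = some u} x y :=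
    fun x y u hx hy => (h2.conn x y u hx hy).mono fun z hz => i2 z u hz
  refine ⟨φ, ⟨d, ?_, ?_, ?_, ?_, ?_, ?_⟩, e1, e2⟩
  · rintro u (hu | hu)
    · obtain ⟨x, hx⟩ := h1.surj u hu
      exact ⟨x, i1 _ _ hx⟩
    · obtain ⟨x, hx⟩ := h2.surj u hu
      exact ⟨x, i2 _ _ hx⟩
  · intro x y u hx hy
    rcases o x u hx with hx | hx <;> rcases o y u hy with hy | hy
    · exact c1 _ _ _ hx hy
    · obtain ⟨z, z1, z2⟩ := hon u (h1.dom _ _ hx).2 (h2.dom _ _ hy).2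
      exact (c1 _ _ _ hx z1).trans (c2 _ _ _ z2 hy)
    · obtain ⟨z, z1, z2⟩ := hon u (h1.dom _ _ hy).2 (h2.dom _ _ hx).2
      exact (c2 _ _ _ hx z2).trans (c1 _ _ _ z1 hy)
    · exact c2 _ _ _ hx hy
  · intro u hu v hv huv
    rcases hE u hu v hv huv with ⟨a, b⟩ | ⟨a, b⟩
    · obtain ⟨x, y, hx, hy, hxy⟩ := h1.adj1 u a v b huv
      exact ⟨x, y, i1 _ _ hx, i1 _ _ hy, hxy⟩
    · obtain ⟨x, y, hx, hy, hxy⟩ := h2.adj1 u a v b huv
      exact ⟨x, y, i2 _ _ hx, i2 _ _ hy, hxy⟩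
  · intro x y u v hx hy hxy huv
    rcases hE' x (d _ _ hx).1 y (d _ _ hy).1 hxy with ⟨a, b⟩ | ⟨a, b⟩
    · exact h1.adj2 x y u v (e1 x a ▸ hx) (e1 y b ▸ hy) hxy huv
    · exact h2.adj2 x y u v (e2 x a ▸ hx) (e2 y b ▸ hy) hxy huv
  · rintro u (hu | hu) hm
    · obtain ⟨x, hx, hm'⟩ := h1.mk1 u hu hm
      exact ⟨x, i1 _ _ hx, hm'⟩
    · obtain ⟨x, hx, hm'⟩ := h2.mk1 u hu hm
      exact ⟨x, i2 _ _ hx, hm'⟩
  · intro x u hx hm
    rcases o x u hx with hx | hx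
    · exact h1.mk2 x u hx hm
    · exact h2.mk2 x u hx hm

end

/-- isomorphism type of an enumerated marked graph -/
def code {V I : Type} (G : SimpleGraph V) (mk : V → Prop) (e : I → Option V) :
    (I → Prop) × (I → I → Prop) × (I → I → Prop) × (I → Prop) :=
  (fun i => e i = none, fun i j => e i = e j,
    fun i j => ∃ u v, e i = some u ∧ e j = some v ∧ G.Adj u v, fun i => ∃ u, e i = some u ∧ mk u)

lemma mod_of_code {V V' I : Type} {G : SimpleGraph V} {mk : V → Prop} {e : I → Option V}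
    {G' : SimpleGraph V'} {mk' : V' → Prop} {e' : I → Option V'}
    (h : code G mk e = code G' mk' e') :
    ∃ φ, IsMod G {u | ∃ i, e i = some u} mk G' {u | ∃ i, e' i = some u} mk' φ ∧
      ∀ i, (e' i).bind φ = e i := by
  simp only [code, Prod.mk.injEq, funext_iff, eq_iff_iff] at h
  obtain ⟨h0, h1, h2, h3⟩ := h
  have ex : ∀ u : V, ∃ x : Option V', ∀ i, e i = some u → e' i = x ∧ x ≠ none := by
    intro u
    by_cases hu : ∃ i, e i = some u
    · obtain ⟨i, hi⟩ := hu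
      refine ⟨e' i, fun j hj => ⟨(h1 j i).1 (hj.trans hi.symm), fun hn => ?_⟩⟩
      rw [(h0 i).2 hn] at hi
      simp at hi
    · exact ⟨none, fun i hi => absurd ⟨i, hi⟩ hu⟩
  by_cases hV : ∃ i, e' i ≠ none
  swap
  · have n' : ∀ i, e' i = none := fun i => by_contra fun hi => hV ⟨i, hi⟩
    have n : ∀ i, e i = none := fun i => (h0 i).2 (n' i)
    refine ⟨fun _ => none, ⟨?_, ?_, ?_, ?_, ?_, ?_, ?_⟩, ?_⟩ <;> simp [n, n']
  obtain ⟨i0, hi0⟩ := hV
  obtain ⟨x0, -⟩ := Option.ne_none_iff_exists'.1 hi0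
  have ex' : ∀ u : V, ∃ x : V', ∀ i, e i = some u → e' i = some x := by
    intro u
    obtain ⟨x, hx⟩ := ex u
    rcases x with _ | x
    · exact ⟨x0, fun i hi => absurd rfl (hx i hi).2⟩
    · exact ⟨x, fun i hi => (hx i hi).1⟩
  choose f hf using ex'
  obtain ⟨φ, hφ, hs⟩ := IsMod.of_inj (G := G) (G' := G') (U := {u | ∃ i, e i = some u})
    (U' := {u | ∃ i, e' i = some u}) (mk := mk) (mk' := mk') f
    (by
      rintro u ⟨i, hi⟩ v ⟨j, hj⟩ huv
      have := (h1 i j).2 (by rw [hf _ _ hi, hf _ _ hj, huv])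
      rw [hi, hj] at this
      exact Option.some.inj this)
    (by
      rintro u ⟨i, hi⟩
      exact ⟨i, hf _ _ hi⟩)
    (by
      rintro u ⟨i, hi⟩ v ⟨j, hj⟩
      have := h2 i j
      simpa [hi, hj, hf _ _ hi, hf _ _ hj] using this)
    (by
      rintro u ⟨i, hi⟩
      have := h3 i
      simpa [hi, hf _ _ hi] using this)
  refine ⟨φ, hφ, fun i => ?_⟩
  rcases hi : e i with _ | u
  · simp [(h0 i).1 hi]
  · rw [hf _ _ hi]
    exact (hs _ _).2 ⟨⟨i, hi⟩, rfl⟩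

/-- the trivial marking -/
def tr {V : Type} : V → Prop := fun _ => True

lemma IndMinor.isMod {H G : FinGraph} (h : IndMinor H G) :
    ∃ φ, IsMod H.2 Set.univ tr G.2 Set.univ tr φ := by
  classical
  obtain ⟨B, hc, hd, ha⟩ := h
  let φ : Fin G.1 → Option (Fin H.1) := fun x => if h : ∃ i, x ∈ B i then some h.choose else none
  have hφ : ∀ x i, φ x = some i ↔ x ∈ B i := by
    intro x i
    by_cases h : ∃ i, x ∈ B i
    · simp only [φ, dif_pos h, Option.some.injEq]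
      constructor
      · rintro rfl
        exact h.choose_spec
      · intro hi
        by_contra hne
        exact Set.disjoint_left.1 (hd _ _ hne) h.choose_spec hi
    · simp only [φ, dif_neg h]
      exact ⟨fun h' => by simp at h', fun h' => absurd ⟨i, h'⟩ h⟩
  have ne : ∀ i, ∃ x, φ x = some i := fun i => by
    obtain ⟨x⟩ := (hc i).nonempty
    exact ⟨x.1, (hφ _ _).2 x.2⟩
  refine ⟨φ, ⟨fun _ _ _ => ⟨trivial, trivial⟩, fun u _ => ne u, ?_, ?_, ?_, ?_, fun _ _ _ _ => trivial⟩⟩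
  · intro x y u hx hy
    exact (rt_of_conn (hc u) x ((hφ _ _).1 hx) y ((hφ _ _).1 hy)).mono fun z hz => (hφ _ _).2 hz
  · intro u _ v _ huv
    obtain ⟨x, hx, y, hy, hxy⟩ := (ha u v huv.ne).1 huv
    exact ⟨x, y, (hφ _ _).2 hx, (hφ _ _).2 hy, hxy⟩
  · intro x y u v hx hy hxy huv
    exact (ha u v huv).2 ⟨x, (hφ _ _).1 hx, y, (hφ _ _).1 hy, hxy⟩
  · intro u _ _
    obtain ⟨x, hx⟩ := ne u
    exact ⟨x, hx, trivial⟩

lemma IsMod.indMinor {H G : FinGraph} {W : Set (Fin G.1)} {mk : Fin H.1 → Prop}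
    {mk' : Fin G.1 → Prop} {φ : Fin G.1 → Option (Fin H.1)}
    (h : IsMod H.2 Set.univ mk G.2 W mk' φ) : IndMinor H G := by
  refine ⟨fun i => {x | φ x = some i}, fun i => conn_of_rt (h.surj i trivial)
    fun x hx y hy => h.conn x y i hx hy, fun i j hij => ?_, fun i j hij => ⟨fun hh => ?_, ?_⟩⟩
  · exact Set.disjoint_left.2 fun x h1 h2 => hij (Option.some.inj (h1.symm.trans h2))
  · obtain ⟨x, y, hx, hy, hxy⟩ := h.adj1 i trivial j trivial hh
    exact ⟨x, hx, y, hy, hxy⟩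
  · rintro ⟨x, hx, y, hy, hxy⟩
    exact h.adj2 x y i j hx hy hxy hij

lemma IndMinor.refl (G : FinGraph) : IndMinor G G := by
  obtain ⟨φ, h, -⟩ := IsMod.refl (G := G.2) (U := Set.univ) (mk := tr)
  exact h.indMinor

lemma IndMinor.trans {K H G : FinGraph} (h1 : IndMinor K H) (h2 : IndMinor H G) :
    IndMinor K G := by
  obtain ⟨φ, h⟩ := h1.isMod
  obtain ⟨ψ, h'⟩ := h2.isMod
  exact (h.trans h').indMinor

lemma IndMinor.card_le {H G : FinGraph} (h : IndMinor H G) : H.1 ≤ G.1 := by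
  obtain ⟨φ, h⟩ := h.isMod
  choose r hr using fun i => h.surj i trivial
  have hinj : Function.Injective r := fun i j hij => by
    have := hr i
    rw [hij, hr j] at this
    exact (Option.some.inj this).symm
  simpa using Fintype.card_le_of_injective r hinj

/-- putting the hub back -/
lemma IsMod.hub {V V' : Type} {G : SimpleGraph V} {G' : SimpleGraph V'} {h : V} {h' : V'}
    {φ : V' → Option V}
    (m : IsMod G {u | u ≠ h} (fun u => G.Adj u h) G' {u | u ≠ h'} (fun u => G'.Adj u h') φ) :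
    ∃ ψ, IsMod G Set.univ tr G' Set.univ tr ψ := by
  classical
  let ψ : V' → Option V := fun x => if x = h' then some h else φ x
  have i1 : ∀ x u, φ x = some u → ψ x = some u := fun x u hx => by
    have : x ≠ h' := (m.dom _ _ hx).1
    simp [ψ, this, hx]
  have i2 : ψ h' = some h := by simp [ψ]
  have o : ∀ x u, ψ x = some u → (x = h' ∧ u = h) ∨ φ x = some u := by
    intro x u hx
    by_cases hh : x = h'
    · left
      simpa [ψ, hh, eq_comm] using hx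
    · right
      simpa [ψ, hh] using hx
  have sj : ∀ u, ∃ x, ψ x = some u := by
    intro u
    by_cases hu : u = h
    · exact ⟨h', hu ▸ i2⟩
    · obtain ⟨x, hx⟩ := m.surj u hu
      exact ⟨x, i1 _ _ hx⟩
  refine ⟨ψ, ⟨fun _ _ _ => ⟨trivial, trivial⟩, fun u _ => sj u, ?_, ?_, ?_, ?_,
    fun _ _ _ _ => trivial⟩⟩
  · intro x y u hx hy
    rcases o x u hx with ⟨rfl, rfl⟩ | hx' <;> rcases o y _ hy with ⟨rfl, hu⟩ | hy'
    · exact RT.refl _ _
    · exact absurd rfl (m.dom _ _ hy').2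
    · exact absurd hu (m.dom _ _ hx').2
    · exact (m.conn x y u hx' hy').mono fun z hz => i1 _ _ hz
  · intro u _ v _ huv
    by_cases hu : u = h
    · subst hu
      obtain ⟨y, hy, hm⟩ := m.mk1 v huv.ne.symm huv.symm
      exact ⟨h', y, i2, i1 _ _ hy, hm.symm⟩
    by_cases hv : v = h
    · subst hv
      obtain ⟨y, hy, hm⟩ := m.mk1 u huv.ne huv
      exact ⟨y, h', i1 _ _ hy, i2, hm⟩
    obtain ⟨x, y, hx, hy, hxy⟩ := m.adj1 u hu v hv huv
    exact ⟨x, y, i1 _ _ hx, i1 _ _ hy, hxy⟩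
  · intro x y u v hx hy hxy huv
    rcases o x u hx with ⟨rfl, rfl⟩ | hx' <;> rcases o y _ hy with ⟨rfl, hu⟩ | hy'
    · exact absurd hu.symm huv
    · exact (m.mk2 y v hy' hxy.symm).symm
    · exact hu ▸ m.mk2 x u hx' hxy
    · exact m.adj2 x y u v hx' hy' hxy huv
  · intro u _ _
    obtain ⟨x, hx⟩ := sj u
    exact ⟨x, hx, trivial⟩

end Pool.Agent.Lib.NC4b
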