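import Mathlib
import Pool.Agent.Lib.NC4b.Mod

set_option autoImplicit false

namespace Pool.Agent.Lib.NC4b

/-- one-page book embedding of the vertices in `S` -/
structure Book {V : Type} (G : SimpleGraph V) (S : Set V) (p : V → ℤ) : Prop where
  inj : ∀ u ∈ S, ∀ v ∈ S, p u = p v → u = v
  nc : ∀ a ∈ S, ∀ b ∈ S, ∀ c ∈ S, ∀ d ∈ S, G.Adj a b → G.Adj c d →
    p a < p c → p c < p b → p b < p d → False

section
variable {V V' : Type} {G : SimpleGraph V} {S : Set V} {p : V → ℤ}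

lemma Book.inside (h : Book G S p) {X : Set V} (hX : X ⊆ S) {c d : V} (hc : c ∈ S) (hd : d ∈ S)
    (hcd : G.Adj c d) (hcX : c ∉ X) (hdX : d ∉ X) {x y : V} (hxy : RT G X x y)
    (hx : p c < p x ∧ p x < p d) : p c < p y ∧ p y < p d := by
  refine hxy.inv (fun z => p c < p z ∧ p z < p d) ?_ hx
  intro a b ha hb hab h1
  have n1 : p b ≠ p c := fun e => hcX (h.inj b (hX hb) c hc e ▸ hb)
  have n2 : p b ≠ p d := fun e => hdX (h.inj b (hX hb) d hd e ▸ hb)
  have e1 := h.nc c hc d hd a (hX ha) b (hX hb) hcd hab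
  have e2 := h.nc b (hX hb) a (hX ha) c hc d hd hab.symm hcd
  constructor
  · by_contra hh
    exact e2 (by omega) h1.1 h1.2
  · by_contra hh
    exact e1 h1.1 h1.2 (by omega)

lemma Book.interleave (h : Book G S p) {X Y : Set V} (hX : X ⊆ S) (hY : Y ⊆ S)
    (hXY : ∀ z ∈ X, z ∉ Y) {x1 x2 y1 y2 : V} (hx : RT G X x1 x2) (m1 : x1 ∈ X) (hy : RT G Y y1 y2)
    (h1 : p x1 < p y1) (h2 : p y1 < p x2) (h3 : p x2 < p y2) : False := by
  have m2 := hx.mem m1
  have := hy.inv (fun z => p x1 < p z ∧ p z < p x2) (by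
    intro a b ha hb hab k
    have n1 : p b ≠ p x1 := fun e => hXY x1 m1 (h.inj b (hY hb) x1 (hX m1) e ▸ hb)
    have n2 : p b ≠ p x2 := fun e => hXY x2 m2 (h.inj b (hY hb) x2 (hX m2) e ▸ hb)
    have aX : a ∉ X := fun e => hXY a e ha
    have bX : b ∉ X := fun e => hXY b e hb
    have e1 := h.inside hX (hY ha) (hY hb) hab aX bX hx.symm
    have e2 := h.inside hX (hY hb) (hY ha) hab.symm bX aX hx
    constructor
    · by_contra hh
      have := e2 ⟨by omega, k.1⟩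
      omega
    · by_contra hh
      have := e1 ⟨k.2, by omega⟩
      omega) ⟨h1, h2⟩
  omega

lemma Book.of_mod {G' : SimpleGraph V'} {S' U' : Set V'} {p' : V' → ℤ} (h : Book G' S' p')
    {U : Set V} {mk : V → Prop} {mk' : V' → Prop} {φ : V' → Option V}
    (m : IsMod G U mk G' U' mk' φ) :
    ∃ q, Book G {u | u ∈ U ∧ ∀ x, φ x = some u → x ∈ S'} q := by
  classical
  have ex : ∀ u : V, ∃ z : ℤ, u ∈ U → ∃ x, φ x = some u ∧ p' x = z := by
    intro u
    by_cases hu : u ∈ U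
    · obtain ⟨x, hx⟩ := m.surj u hu
      exact ⟨p' x, fun _ => ⟨x, hx, rfl⟩⟩
    · exact ⟨0, fun h => absurd h hu⟩
  choose q hq using ex
  refine ⟨q, ?_, ?_⟩
  · rintro u ⟨hu, hu'⟩ v ⟨hv, hv'⟩ e
    obtain ⟨x, hx, ex⟩ := hq u hu
    obtain ⟨y, hy, ey⟩ := hq v hv
    have := h.inj x (hu' x hx) y (hv' y hy) (by omega)
    subst this
    exact Option.some.inj (hx.symm.trans hy)
  · rintro a ⟨ha, ha'⟩ b ⟨hb, hb'⟩ c ⟨hc, hc'⟩ d ⟨hd, hd'⟩ hab hcd l1 l2 l3
    have key : ∀ a ∈ U, ∀ b ∈ U, G.Adj a b → ∀ x y, φ x = some a → φ y = some b →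
        RT G' {z | φ z = some a ∨ φ z = some b} x y := by
      intro a ha b hb hab x y hx hy
      obtain ⟨s, t, hs, ht, hst⟩ := m.adj1 a ha b hb hab
      exact ((m.conn x s a hx hs).mono fun z hz => Or.inl hz).trans
        ((RT.single hst (Or.inl hs) (Or.inr ht)).trans
          ((m.conn t y b ht hy).mono fun z hz => Or.inr hz))
    obtain ⟨xa, h1, e1⟩ := hq a ha
    obtain ⟨xb, h2, e2⟩ := hq b hb
    obtain ⟨xc, h3, e3⟩ := hq c hc
    obtain ⟨xd, h4, e4⟩ := hq d hd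
    refine h.interleave ?_ ?_ ?_ (key a ha b hb hab xa xb h1 h2) (Or.inl h1)
      (key c hc d hd hcd xc xd h3 h4) (by omega) (by omega) (by omega)
    · rintro z (hz | hz)
      · exact ha' z hz
      · exact hb' z hz
    · rintro z (hz | hz)
      · exact hc' z hz
      · exact hd' z hz
    · rintro z (hz | hz) (hz' | hz') <;>
      · have := Option.some.inj (hz.symm.trans hz')
        subst this
        omega

lemma Book.pair (h : Book G S p) {u v x y : V} (hu : u ∈ S) (hv : v ∈ S) (hx : x ∈ S)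
    (hy : y ∈ S) (l : p u < p v) (hxy : x ≠ y) (ux : G.Adj u x) (uy : G.Adj u y) (vx : G.Adj v x)
    (vy : G.Adj v y) (e : (p u < p x ∧ p x < p v) ↔ (p u < p y ∧ p y < p v)) : False := by
  wlog l' : p x < p y generalizing x y
  · have n : p x ≠ p y := fun e => hxy (h.inj x hx y hy e)
    exact this hy hx hxy.symm uy ux vy vx e.symm (by omega)
  have n1 : p u ≠ p x := fun e => ux.ne (h.inj _ hu _ hx e)
  have n2 : p u ≠ p y := fun e => uy.ne (h.inj _ hu _ hy e)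
  have n3 : p v ≠ p x := fun e => vx.ne (h.inj _ hv _ hx e)
  have n4 : p v ≠ p y := fun e => vy.ne (h.inj _ hv _ hy e)
  by_cases c1 : p u < p x ∧ p x < p v
  · exact h.nc u hu y hy x hx v hv uy vx.symm c1.1 l' (e.1 c1).2
  have c2 : ¬ (p u < p y ∧ p y < p v) := fun k => c1 (e.2 k)
  by_cases c3 : p y < p u
  · exact h.nc x hx u hu y hy v hv ux.symm vy.symm l' c3 l
  by_cases c4 : p x < p u
  · exact h.nc x hx v hv u hu y hy vx.symm uy c4 l (by omega)
  · exact h.nc u hu x hx v hv y hy ux vy l (by omega) l'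

lemma Book.no_k23 (h : Book G S p) {u v a b c : V} (hu : u ∈ S) (hv : v ∈ S) (ha : a ∈ S)
    (hb : b ∈ S) (hc : c ∈ S) (huv : u ≠ v) (hab : a ≠ b) (hac : a ≠ c) (hbc : b ≠ c)
    (ua : G.Adj u a) (ub : G.Adj u b) (uc : G.Adj u c) (va : G.Adj v a) (vb : G.Adj v b)
    (vc : G.Adj v c) : False := by
  wlog l : p u < p v generalizing u v
  · have n : p u ≠ p v := fun e => huv (h.inj u hu v hv e)
    exact this hv hu huv.symm va vb vc ua ub uc (by omega)
  have := h.pair hu hv ha hb l hab ua ub va vb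
  have := h.pair hu hv ha hc l hac ua uc va vc
  have := h.pair hu hv hb hc l hbc ub uc vb vc
  tauto

end

lemma arc_ne {a b c d x : ℝ} (h1 : a < x) (h2 : x < b) (h3 : c < x) (h4 : x < d)
    (n1 : ¬ (a < c ∧ c < b ∧ b < d)) (n2 : ¬ (c < a ∧ a < d ∧ d < b))
    (e : (x - a) * (b - x) = (x - c) * (d - x)) : a = c ∧ b = d := by
  rcases lt_trichotomy a c with h | h | h
  · have : d ≤ b := by
      by_contra hh
      exact n1 ⟨h, by linarith, by linarith⟩
    nlinarith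
  · subst h
    refine ⟨rfl, ?_⟩
    have := mul_left_cancel₀ (by linarith : x - a ≠ 0) e
    linarith
  · have : b ≤ d := by
      by_contra hh
      exact n2 ⟨h, by linarith, by linarith⟩
    nlinarith

theorem planar_of_book {H : FinGraph} {S : Set (Fin H.1)} {p : Fin H.1 → ℤ} (h : Book H.2 S p)
    (hS : ∀ u v, u ∉ S → v ∉ S → u = v) : Planar H := by
  classical
  let X : Fin H.1 → ℝ := fun v => if v ∈ S then p v else 0
  let Y : Fin H.1 → ℝ := fun v => if v ∈ S then 0 else -1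
  let c : Fin H.1 → Fin H.1 → ℝ := fun i j => if i ∈ S ∧ j ∈ S then (X j - X i) ^ 2 else 0
  have xinj : ∀ u ∈ S, ∀ v ∈ S, X u = X v → u = v := fun u hu v hv e => by
    simp only [X, if_pos hu, if_pos hv, Int.cast_inj] at e
    exact h.inj u hu v hv e
  have Y0 : ∀ v ∈ S, Y v = 0 := fun v hv => if_pos hv
  have Y1 : ∀ v, v ∉ S → Y v = -1 := fun v hv => if_neg hv
  have X1 : ∀ v, v ∉ S → X v = 0 := fun v hv => if_neg hv
  have Yv : ∀ v, Y v = 0 ∨ Y v = -1 := fun v => by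
    by_cases hv : v ∈ S
    · exact Or.inl (Y0 v hv)
    · exact Or.inr (Y1 v hv)
  have finj : Function.Injective fun v => (X v, Y v) := by
    intro u v e
    simp only [Prod.mk.injEq] at e
    by_cases hu : u ∈ S <;> by_cases hv : v ∈ S
    · exact xinj u hu v hv e.1
    · have := e.2
      rw [Y0 u hu, Y1 v hv] at this
      norm_num at this
    · have := e.2
      rw [Y1 u hu, Y0 v hv] at this
      norm_num at this
    · exact hS u v hu hv
  let γ : (i j : Fin H.1) → Path (X i, Y i) (X j, Y j) := fun i j =>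
    { toFun := fun t => ((1 - (t : ℝ)) * X i + t * X j,
        (1 - (t : ℝ)) * Y i + t * Y j + t * (1 - t) * c i j)
      continuous_toFun := by fun_prop
      source' := by simp
      target' := by simp }
  have hγ : ∀ i j (t : unitInterval), γ i j t = ((1 - (t : ℝ)) * X i + t * X j,
      (1 - (t : ℝ)) * Y i + t * Y j + t * (1 - t) * c i j) := fun _ _ _ => rfl
  have cs : ∀ i j, H.2.Adj i j → (i ∈ S ∧ j ∈ S ∧ X i ≠ X j ∧ Y i = 0 ∧ Y j = 0 ∧
      c i j = (X j - X i) ^ 2) ∨ (i ∈ S ∧ j ∉ S ∧ Y i = 0 ∧ Y j = -1 ∧ X j = 0 ∧ c i j = 0) ∨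
      (i ∉ S ∧ j ∈ S ∧ Y i = -1 ∧ Y j = 0 ∧ X i = 0 ∧ c i j = 0) := by
    intro i j hij
    by_cases hi : i ∈ S <;> by_cases hj : j ∈ S
    · exact Or.inl ⟨hi, hj, fun e => hij.ne (xinj i hi j hj e), Y0 i hi, Y0 j hj, if_pos ⟨hi, hj⟩⟩
    · exact Or.inr (Or.inl ⟨hi, hj, Y0 i hi, Y1 j hj, X1 j hj, if_neg fun e => hj e.2⟩)
    · exact Or.inr (Or.inr ⟨hi, hj, Y1 i hi, Y0 j hj, X1 i hi, if_neg fun e => hi e.1⟩)
    · exact absurd (hS i j hi hj) hij.ne
  have ncr : ∀ a ∈ S, ∀ b ∈ S, ∀ c ∈ S, ∀ d ∈ S, H.2.Adj a b → H.2.Adj c d →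
      ¬ (X a < X c ∧ X c < X b ∧ X b < X d) := by
    intro a ha b hb c hc d hd hab hcd e
    simp only [X, if_pos ha, if_pos hb, if_pos hc, if_pos hd, Int.cast_lt] at e
    exact h.nc a ha b hb c hc d hd hab hcd e.1 e.2.1 e.2.2
  have ori : ∀ i ∈ S, ∀ j ∈ S, H.2.Adj i j → ∀ t : ℝ, 0 < t → t < 1 → ∃ a ∈ S, ∃ b ∈ S,
      H.2.Adj a b ∧ ((a = i ∧ b = j) ∨ (a = j ∧ b = i)) ∧ X a < (1 - t) * X i + t * X j ∧
        (1 - t) * X i + t * X j < X b ∧ t * (1 - t) * (X j - X i) ^ 2 =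
          ((1 - t) * X i + t * X j - X a) * (X b - ((1 - t) * X i + t * X j)) := by
    intro i hi j hj hij t t0 t1
    rcases lt_or_gt_of_ne (fun e => hij.ne (xinj i hi j hj e)) with l | l
    · exact ⟨i, hi, j, hj, hij, Or.inl ⟨rfl, rfl⟩, by nlinarith, by nlinarith, by ring⟩
    · exact ⟨j, hj, i, hi, hij.symm, Or.inr ⟨rfl, rfl⟩, by nlinarith, by nlinarith, by ring⟩
  have pos : ∀ (t d : ℝ), 0 < t → t < 1 → d ≠ 0 → 0 < t * (1 - t) * d ^ 2 := by
    intro t d t0 t1 hd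
    have : 0 < 1 - t := by linarith
    positivity
  refine ⟨fun v => (X v, Y v), finj, γ, ?_, ?_, ?_⟩
  · intro i j hij _ s t e
    rw [hγ, hγ, Prod.mk.injEq] at e
    obtain ⟨e1, e2⟩ := e
    apply Subtype.ext
    rcases cs i j hij with ⟨-, -, k, -⟩ | ⟨-, -, k1, k2, -, k3⟩ | ⟨-, -, k1, k2, -, k3⟩
    · have : ((s : ℝ) - t) * (X j - X i) = 0 := by linarith
      rcases mul_eq_zero.1 this with a | a
      · linarith
      · exact absurd (by linarith) k
    · rw [k1, k2, k3] at e2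
      linarith
    · rw [k1, k2, k3] at e2
      linarith
  · intro i j hij _ t ht v e
    rw [hγ, Prod.mk.injEq] at e
    obtain ⟨-, e2⟩ := e
    obtain ⟨t0, t1⟩ := ht
    rcases cs i j hij with ⟨-, -, k, k1, k2, k3⟩ | ⟨-, -, k1, k2, -, k3⟩ | ⟨-, -, k1, k2, -, k3⟩
    · have := pos t (X j - X i) t0 t1 (sub_ne_zero.2 k.symm)
      rw [k1, k2, k3] at e2
      rcases Yv v with a | a <;> linarith
    · rw [k1, k2, k3] at e2
      rcases Yv v with a | a <;> linarith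
    · rw [k1, k2, k3] at e2
      rcases Yv v with a | a <;> linarith
  · intro i j k l hij lt1 hkl lt2 hne s t hs ht e
    rw [hγ, hγ, Prod.mk.injEq] at e
    obtain ⟨e1, e2⟩ := e
    obtain ⟨s0, s1⟩ := hs
    obtain ⟨t0, t1⟩ := ht
    have fin : ¬ ((i = k ∧ j = l) ∨ (i = l ∧ j = k)) := by
      rintro (⟨rfl, rfl⟩ | ⟨rfl, rfl⟩)
      · simp at hne
      · exact lt_asymm lt1 lt2
    apply fin
    rcases cs i j hij with ⟨a1, a2, a3, a4, a5, a6⟩ | ⟨a1, a2, a3, a4, a5, a6⟩ |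
      ⟨a1, a2, a3, a4, a5, a6⟩ <;>
    rcases cs k l hkl with ⟨b1, b2, b3, b4, b5, b6⟩ | ⟨b1, b2, b3, b4, b5, b6⟩ |
      ⟨b1, b2, b3, b4, b5, b6⟩
    · obtain ⟨a, ha, b, hb, hab, o1, l1, l2, q1⟩ := ori i a1 j a2 hij s s0 s1
      obtain ⟨c, hc, d, hd, hcd, o2, l3, l4, q2⟩ := ori k b1 l b2 hkl t t0 t1
      rw [a4, a5, a6, b4, b5, b6, q1, q2, ← e1] at e2
      rw [← e1] at l3 l4
      obtain ⟨r1, r2⟩ := arc_ne l1 l2 l3 l4 (ncr a ha b hb c hc d hd hab hcd)
        (ncr c hc d hd a ha b hb hcd hab) (by linarith)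
      have r3 := xinj a ha c hc r1
      have r4 := xinj b hb d hd r2
      subst r3 r4
      rcases o1 with ⟨rfl, rfl⟩ | ⟨rfl, rfl⟩ <;> rcases o2 with ⟨o3, o4⟩ | ⟨o3, o4⟩ <;> tauto
    · have := pos s (X j - X i) s0 s1 (sub_ne_zero.2 a3.symm)
      rw [a4, a5, a6, b3, b4, b6] at e2
      exfalso
      linarith
    · have := pos s (X j - X i) s0 s1 (sub_ne_zero.2 a3.symm)
      rw [a4, a5, a6, b3, b4, b6] at e2
      exfalso
      linarith
    · have := pos t (X l - X k) t0 t1 (sub_ne_zero.2 b3.symm)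
      rw [a3, a4, a6, b4, b5, b6] at e2
      exfalso
      linarith
    · rw [a3, a4, a6, b3, b4, b6] at e2
      have st : (s : ℝ) = t := by linarith
      rw [a5, b5, st] at e1
      have := mul_left_cancel₀ (by linarith : (1 - (t : ℝ)) ≠ 0) (by linarith :
        (1 - (t : ℝ)) * X i = (1 - t) * X k)
      exact Or.inl ⟨xinj i a1 k b1 this, hS j l a2 b2⟩
    · rw [a3, a4, a6, b3, b4, b6] at e2
      have st : (1 - s : ℝ) = t := by linarith
      rw [a5, b5, st] at e1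
      have := mul_left_cancel₀ (by linarith : (t : ℝ) ≠ 0) (by linarith :
        (t : ℝ) * X i = t * X l)
      exact Or.inr ⟨xinj i a1 l b2 this, hS j k a2 b1⟩
    · have := pos t (X l - X k) t0 t1 (sub_ne_zero.2 b3.symm)
      rw [a3, a4, a6, b4, b5, b6] at e2
      exfalso
      linarith
    · rw [a3, a4, a6, b3, b4, b6] at e2
      have st : (1 - t : ℝ) = s := by linarith
      rw [a5, b5, st] at e1
      have := mul_left_cancel₀ (by linarith : (s : ℝ) ≠ 0) (by linarith :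
        (s : ℝ) * X j = s * X k)
      exact Or.inr ⟨hS i l a1 b2, xinj j a2 k b1 this⟩
    · rw [a3, a4, a6, b3, b4, b6] at e2
      have st : (s : ℝ) = t := by linarith
      rw [a5, b5, st] at e1
      have := mul_left_cancel₀ (by linarith : (t : ℝ) ≠ 0) (by linarith :
        (t : ℝ) * X j = t * X l)
      exact Or.inl ⟨hS i k a1 b1, xinj j a2 l b2 this⟩

end Pool.Agent.Lib.NC4b
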