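import Mathlib
import Pool.Agent.Lib.NC4b.Mod

set_option autoImplicit false

namespace Pool.Agent.Lib.NC4b

/-- the cut is a marked clique -/
def Good {V : Type} (G : SimpleGraph V) (mk : V → Prop) (r : Bool → Option V) : Prop :=
  (∀ b u, r b = some u → mk u) ∧ ∀ b c u v, r b = some u → r c = some v → u ≠ v → G.Adj u v

open Classical in
/-- width of a cut, 3 when it is not good -/
noncomputable def wd {V : Type} (G : SimpleGraph V) (mk : V → Prop) (r : Bool → Option V) : ℕ :=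
  if Good G mk r then (if r true = none then 0 else if r true = r false then 1 else 2) else 3

/-- the cut `r` can be contracted onto the cut `r'` inside `S` -/
def Link {V : Type} (G : SimpleGraph V) (S : Set V) (r r' : Bool → Option V) : Prop :=
  ∃ φ : V → Option V, (∀ x u, φ x = some u → x ∈ S ∧ (∃ b, r' b = some u) ∧
    RT G {y | φ y = some u} u x) ∧ (∀ b, (r' b).bind φ = r' b) ∧ ∀ b, (r b).bind φ = r' b

/-- connected marked graphs with a path-like structure of width two -/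
structure Ch (L : ℕ) where
  V : Type
  G : SimpleGraph V
  U : Set V
  mk' : V → Prop
  α : V → ℕ
  β : V → ℕ
  ρ : ℕ → Bool → Option V
  c1 : ∀ u ∈ U, α u ≤ β u
  c2 : ∀ u ∈ U, ∀ v ∈ U, G.Adj u v → α u ≤ β v + 1
  c3 : ∀ m u, (∃ b, ρ m b = some u) ↔ u ∈ U ∧ α u ≤ m ∧ m ≤ β u
  c4 : ∀ m, ρ m true = none ↔ ρ m false = none
  c5 : ∀ i, ∃ m, i < m ∧ m ≤ i + L ∧ Good G mk' (ρ m)
  c6 : ∀ u ∈ U, ∀ v ∈ U, RT G U u v
  c7 : ∀ i j, i < j → wd G mk' (ρ i) = 2 → wd G mk' (ρ j) = 2 →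
    (∀ m, i < m → m < j → ¬ Good G mk' (ρ m)) →
    Link G {u | u ∈ U ∧ α u ≤ j ∧ i ≤ β u} (ρ i) (ρ j)

variable {L : ℕ}

/-- segment of a chain -/
def Ch.S (C : Ch L) (i j : ℕ) : Set C.V := {u | u ∈ C.U ∧ C.α u ≤ j ∧ i ≤ C.β u}

/-- width at a position -/
noncomputable def Ch.W (C : Ch L) (m : ℕ) : ℕ := wd C.G C.mk' (C.ρ m)

/-- rooted model between segments -/
def RM (C : Ch L) (i j : ℕ) (D : Ch L) (p q : ℕ) : Prop :=
  ∃ φ, IsMod C.G (C.S i j) C.mk' D.G (D.S p q) D.mk' φ ∧ (∀ b, (D.ρ p b).bind φ = C.ρ i b) ∧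
    ∀ b, (D.ρ q b).bind φ = C.ρ j b

lemma Ch.mem_S (C : Ch L) {i j m : ℕ} (h1 : i ≤ m) (h2 : m ≤ j) {b : Bool} {u : C.V}
    (h : C.ρ m b = some u) : u ∈ C.S i j := by
  obtain ⟨a1, a2, a3⟩ := (C.c3 m u).1 ⟨b, h⟩
  exact ⟨a1, by omega, by omega⟩

lemma RM.refl (C : Ch L) {i j : ℕ} (h : i ≤ j) : RM C i j C i j := by
  obtain ⟨φ, h1, h2⟩ := IsMod.refl (G := C.G) (U := C.S i j) (mk := C.mk')
  refine ⟨φ, h1, fun b => ?_, fun b => ?_⟩
  · rcases hh : C.ρ i b with _ | u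
    · rfl
    · exact h2 u (C.mem_S le_rfl h hh)
  · rcases hh : C.ρ j b with _ | u
    · rfl
    · exact h2 u (C.mem_S h le_rfl hh)

lemma RM.trans {C D E : Ch L} {i j p q s t : ℕ} (h : RM C i j D p q) (h' : RM D p q E s t) :
    RM C i j E s t := by
  obtain ⟨φ, h1, h2, h3⟩ := h
  obtain ⟨ψ, k1, k2, k3⟩ := h'
  refine ⟨_, h1.trans k1, fun b => ?_, fun b => ?_⟩
  · rw [← h2, ← k2, Option.bind_assoc]
  · rw [← h3, ← k3, Option.bind_assoc]

lemma Ch.S_union (C : Ch L) {a b c : ℕ} (h1 : a ≤ b) (h2 : b ≤ c) :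
    C.S a b ∪ C.S b c = C.S a c := by
  ext u
  constructor
  · rintro (⟨k1, k2, k3⟩ | ⟨k1, k2, k3⟩) <;> exact ⟨k1, by omega, by omega⟩
  · rintro ⟨k1, k2, k3⟩
    have := C.c1 u k1
    by_cases h : C.α u ≤ b
    · exact Or.inl ⟨k1, h, k3⟩
    · exact Or.inr ⟨k1, k2, by omega⟩

lemma Ch.S_edge (C : Ch L) {a b c : ℕ} (h1 : a ≤ b) (h2 : b ≤ c) :
    ∀ u ∈ C.S a b ∪ C.S b c, ∀ v ∈ C.S a b ∪ C.S b c, C.G.Adj u v →
      (u ∈ C.S a b ∧ v ∈ C.S a b) ∨ (u ∈ C.S b c ∧ v ∈ C.S b c) := by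
  rw [C.S_union h1 h2]
  rintro u ⟨k1, k2, k3⟩ v ⟨l1, l2, l3⟩ huv
  have := C.c1 u k1
  have := C.c1 v l1
  have := C.c2 u k1 v l1 huv
  have := C.c2 v l1 u k1 huv.symm
  by_cases h : C.α u ≤ b ∧ C.α v ≤ b
  · exact Or.inl ⟨⟨k1, h.1, k3⟩, l1, h.2, l3⟩
  · exact Or.inr ⟨⟨k1, k2, by omega⟩, l1, l2, by omega⟩

lemma RM.cat {C D : Ch L} {a b c p q r : ℕ} (h1 : a ≤ b) (h2 : b ≤ c) (k1 : p ≤ q) (k2 : q ≤ r)
    (h : RM C a b D p q) (h' : RM C b c D q r) : RM C a c D p r := by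
  obtain ⟨φ, m1, m2, m3⟩ := h
  obtain ⟨ψ, n1, n2, n3⟩ := h'
  obtain ⟨χ, o1, o2, o3⟩ := m1.glue n1 (C.S_edge h1 h2) (D.S_edge k1 k2)
    (by
      rintro x ⟨x1, x2, -⟩ ⟨-, -, x3⟩
      obtain ⟨e, he⟩ := (D.c3 q x).2 ⟨x1, x2, x3⟩
      have a1 := m3 e
      have a2 := n2 e
      rw [he] at a1 a2
      exact a1.trans a2.symm)
    (by
      rintro x ⟨x1, x2, -⟩ ⟨-, -, x3⟩
      obtain ⟨e, he⟩ := (C.c3 b x).2 ⟨x1, x2, x3⟩
      have a1 := m3 e
      have a2 := n2 e
      rw [he] at a1 a2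
      obtain ⟨y, hy, hy'⟩ := Option.bind_eq_some_iff.1 a1
      rw [hy] at a2
      exact ⟨y, hy', a2⟩)
  rw [C.S_union h1 h2, D.S_union k1 k2] at o1
  refine ⟨χ, o1, fun e => ?_, fun e => ?_⟩
  · rw [← m2]
    rcases hh : D.ρ p e with _ | u
    · rfl
    · exact o2 u (D.mem_S le_rfl k1 hh)
  · rw [← n3]
    rcases hh : D.ρ r e with _ | u
    · rfl
    · exact o3 u (D.mem_S k2 le_rfl hh)

lemma Ch.absorb0 (C : Ch L) {i j : ℕ} (hg : Good C.G C.mk' (C.ρ j))
    (hl : Link C.G (C.S i j) (C.ρ i) (C.ρ j)) : RM C j j C i j := by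
  obtain ⟨φ, h1, h2, h3⟩ := hl
  have fix : ∀ u ∈ C.S j j, φ u = some u := by
    intro u hu
    obtain ⟨b, hb⟩ := (C.c3 j u).2 hu
    have := h2 b
    rw [hb] at this
    exact this
  have d : ∀ x u, φ x = some u → u ∈ C.S j j := fun x u hx => (C.c3 j u).1 (h1 x u hx).2.1
  refine ⟨φ, ⟨fun x u hx => ⟨(h1 x u hx).1, d x u hx⟩, fun u hu => ⟨u, fix u hu⟩, ?_, ?_, ?_, ?_,
    ?_⟩, h3, h2⟩
  · exact fun x y u hx hy => (h1 x u hx).2.2.symm.trans (h1 y u hy).2.2
  · exact fun u hu v hv huv => ⟨u, v, fix u hu, fix v hv, huv⟩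
  · intro x y u v hx hy _ huv
    obtain ⟨b, hb⟩ := (h1 x u hx).2.1
    obtain ⟨c, hc⟩ := (h1 y v hy).2.1
    exact hg.2 b c u v hb hc huv
  · exact fun u hu hm => ⟨u, fix u hu, hm⟩
  · intro x u hx _
    obtain ⟨b, hb⟩ := (h1 x u hx).2.1
    exact hg.1 b u hb

lemma wd_good {V : Type} {G : SimpleGraph V} {mk : V → Prop} {r : Bool → Option V} :
    wd G mk r ≤ 2 ↔ Good G mk r := by
  unfold wd
  split_ifs <;> simp [*]

lemma wd_le {V : Type} {G : SimpleGraph V} {mk : V → Prop} {r : Bool → Option V} :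
    wd G mk r ≤ 3 := by
  unfold wd
  split_ifs <;> simp

lemma wd_zero {V : Type} {G : SimpleGraph V} {mk : V → Prop} {r : Bool → Option V}
    (h : wd G mk r = 0) : r true = none := by
  unfold wd at h
  split_ifs at h <;> simp_all

lemma wd_one {V : Type} {G : SimpleGraph V} {mk : V → Prop} {r : Bool → Option V}
    (h : wd G mk r = 1) : ∃ u, ∀ b, r b = some u := by
  unfold wd at h
  split_ifs at h with h1 h2 h3 <;> try simp at h
  obtain ⟨u, hu⟩ := Option.ne_none_iff_exists'.1 h2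
  refine ⟨u, fun b => ?_⟩
  cases b
  · rw [← h3, hu]
  · exact hu

lemma wd_two {V : Type} {G : SimpleGraph V} {mk : V → Prop} {r : Bool → Option V}
    (h : wd G mk r = 2) : r true ≠ none ∧ r true ≠ r false := by
  unfold wd at h
  split_ifs at h with h1 h2 h3 <;> try simp at h
  exact ⟨h2, h3⟩

lemma Ch.link (C : Ch L) {i j g : ℕ} (hij : i < j) (hg : g ≤ 2) (hi : C.W i = g) (hj : C.W j = g)
    (hm : ∀ m, i < m → m < j → g + 1 ≤ C.W m) : Link C.G (C.S i j) (C.ρ i) (C.ρ j) := by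
  classical
  obtain rfl | rfl | rfl : g = 0 ∨ g = 1 ∨ g = 2 := by omega
  · have a1 := wd_zero hi
    have a2 := wd_zero hj
    have a3 := (C.c4 i).1 a1
    have a4 := (C.c4 j).1 a2
    refine ⟨fun _ => none, by simp, fun b => ?_, fun b => ?_⟩ <;> cases b <;> simp [*]
  · obtain ⟨u, hu⟩ := wd_one hi
    obtain ⟨v, hv⟩ := wd_one hj
    have cu : ∀ x ∈ C.S i i, x = u := fun x hx => by
      obtain ⟨b, hb⟩ := (C.c3 i x).2 hx
      exact Option.some.inj (hb.symm.trans (hu b))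
    have cv : ∀ x ∈ C.S j j, x = v := fun x hx => by
      obtain ⟨b, hb⟩ := (C.c3 j x).2 hx
      exact Option.some.inj (hb.symm.trans (hv b))
    have mu := (C.c3 i u).1 ⟨true, hu true⟩
    have mv := (C.c3 j v).1 ⟨true, hv true⟩
    have mv' : v ∈ C.S i j := C.mem_S hij.le le_rfl (hv true)
    have key : RT C.G (C.S i j) v u := by
      by_contra hne
      have := (C.c6 v mv.1 u mu.1).inv (fun x => RT C.G (C.S i j) v x ∨ j < C.α x) (by
        intro a b ha hb hab h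
        have e1 := C.c1 a ha
        have e2 := C.c1 b hb
        have e3 := C.c2 a ha b hb hab
        have e4 := C.c2 b hb a ha hab.symm
        by_cases hb' : j < C.α b
        · exact Or.inr hb'
        left
        rcases h with h | h
        · have ha' := h.mem mv'
          by_cases hb'' : i ≤ C.β b
          · exact h.trans (RT.single hab ha' ⟨hb, by omega, hb''⟩)
          · rw [cu a ⟨ha, by omega, ha'.2.2⟩] at h
            exact absurd h hne
        · rw [cv b ⟨hb, by omega, by omega⟩]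
          exact RT.refl _ _) (Or.inl (RT.refl _ _))
      rcases this with h | h
      · exact hne h
      · omega
    refine ⟨fun x => if RT C.G (C.S i j) v x then some v else none, ?_, fun b => ?_, fun b => ?_⟩
    · intro x w hx
      by_cases h : RT C.G (C.S i j) v x
      · simp only [if_pos h, Option.some.injEq] at hx
        subst hx
        exact ⟨h.mem mv', ⟨true, hv true⟩, h.self.mono fun z hz => by simp [show RT _ _ _ _ from hz]⟩
      · simp [h] at hx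
    · simp [hv, RT.refl]
    · simp [hu, hv, key]
  · refine C.c7 i j hij hi hj fun m h1 h2 hh => ?_
    have := hm m h1 h2
    have := wd_good.2 hh
    unfold Ch.W at *
    omega

lemma cut_iso {C D : Ch L} {i p : ℕ} (h : C.W i = D.W p) (h2 : C.W i ≤ 2) : RM C i i D p p := by
  have g1 := wd_good.1 h2
  have g2 : Good D.G D.mk' (D.ρ p) := wd_good.1 (by unfold Ch.W at *; omega)
  have pat : (∀ b, C.ρ i b = none ↔ D.ρ p b = none) ∧
      ∀ b c, C.ρ i b = C.ρ i c ↔ D.ρ p b = D.ρ p c := by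
    have e1 := C.c4 i
    have e2 := D.c4 p
    obtain h0 | h0 | h0 : C.W i = 0 ∨ C.W i = 1 ∨ C.W i = 2 := by omega
    · have a1 := wd_zero h0
      have a2 := wd_zero (h ▸ h0 : D.W p = 0)
      refine ⟨fun b => ?_, fun b c => ?_⟩
      · cases b <;> simp_all
      · cases b <;> cases c <;> simp_all
    · obtain ⟨u, hu⟩ := wd_one h0
      obtain ⟨v, hv⟩ := wd_one (h ▸ h0 : D.W p = 1)
      simp [hu, hv]
    · have a1 := wd_two h0
      have a2 := wd_two (h ▸ h0 : D.W p = 2)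
      refine ⟨fun b => ?_, fun b c => ?_⟩
      · cases b <;> simp_all
      · cases b <;> cases c <;> simp [a1.2, a2.2, a1.2.symm, a2.2.symm]
  have hc : code C.G C.mk' (C.ρ i) = code D.G D.mk' (D.ρ p) := by
    simp only [code, Prod.mk.injEq, funext_iff, eq_iff_iff]
    refine ⟨pat.1, pat.2, fun b c => ?_, fun b => ?_⟩
    · have p1 := pat.1 b
      have p2 := pat.1 c
      have p3 := pat.2 b c
      rcases h1 : C.ρ i b with _ | u <;> rcases h2 : C.ρ i c with _ | v <;>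
        rcases h3 : D.ρ p b with _ | x <;> rcases h4 : D.ρ p c with _ | y <;>
        simp only [h1, h2, h3, h4] at p1 p2 p3 <;> simp at p1 p2 p3 ⊢
      exact ⟨fun hh => g2.2 b c x y h3 h4 fun e => hh.ne (p3.2 e),
        fun hh => g1.2 b c u v h1 h2 fun e => hh.ne (p3.1 e)⟩
    · have p1 := pat.1 b
      rcases h1 : C.ρ i b with _ | u <;> rcases h3 : D.ρ p b with _ | x <;>
        simp only [h1, h3] at p1 <;> simp at p1 ⊢
      exact iff_of_true (g1.1 b u h1) (g2.1 b x h3)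
  obtain ⟨φ, m, hφ⟩ := mod_of_code hc
  have s1 : {u | ∃ b, C.ρ i b = some u} = C.S i i := Set.ext fun u => C.c3 i u
  have s2 : {u | ∃ b, D.ρ p b = some u} = D.S p p := Set.ext fun u => D.c3 p u
  rw [s1, s2] at m
  exact ⟨φ, m, hφ, hφ⟩

/-- segments -/
structure Seg (L : ℕ) where
  C : Ch L
  i : ℕ
  j : ℕ
  h : i ≤ j

/-- rooted order on segments -/
def SR (s t : Seg L) : Prop := RM s.C s.i s.j t.C t.i t.j

instance : IsPreorder (Seg L) SR where
  refl s := RM.refl s.C s.h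
  trans _ _ _ h h' := RM.trans h h'

/-- segments whose inner cuts have width at least `g` -/
def TT (L g : ℕ) : Set (Seg L) := {s | s.i < s.j ∧ ∀ m, s.i < m → m < s.j → g ≤ s.C.W m}

lemma TT_three : (TT L 3).PartiallyWellOrderedOn SR := by
  rw [Set.partiallyWellOrderedOn_iff_exists_lt]
  intro f hf
  let e : (s : Seg L) → Fin (L + 1) × Bool → Option s.C.V :=
    fun s t => s.C.ρ (min (s.i + t.1) s.j) t.2
  have len : ∀ n, (f n).j ≤ (f n).i + L := fun n => by
    obtain ⟨m, h1, h2, h3⟩ := (f n).C.c5 (f n).i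
    by_contra hh
    have := (hf n).2 m h1 (by omega)
    have := wd_good.2 h3
    unfold Ch.W at *
    omega
  have hS : ∀ n, {u | ∃ t, e (f n) t = some u} = (f n).C.S (f n).i (f n).j := fun n => by
    have hh := (f n).h
    have hl := len n
    ext u
    constructor
    · rintro ⟨t, ht⟩
      exact (f n).C.mem_S (by omega) (by omega) ht
    · rintro ⟨a1, a2, a3⟩
      have := (f n).C.c1 u a1
      obtain ⟨b, hb⟩ := ((f n).C.c3 (max (f n).i ((f n).C.α u)) u).2 ⟨a1, by omega, by omega⟩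
      refine ⟨(⟨max (f n).i ((f n).C.α u) - (f n).i, by omega⟩, b), ?_⟩
      rw [← hb]
      simp only [e]
      congr 1
      omega
  have key : ∀ m n, code (f m).C.G (f m).C.mk' (e (f m)) = code (f n).C.G (f n).C.mk' (e (f n)) →
      SR (f m) (f n) := by
    intro m n h
    obtain ⟨φ, h1, h2⟩ := mod_of_code h
    rw [hS, hS] at h1
    have := (f m).h
    have := (f n).h
    have := len m
    have := len n
    refine ⟨φ, h1, fun b => ?_, fun b => ?_⟩
    · have := h2 (0, b)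
      simpa [e, (f m).h, (f n).h] using this
    · have := h2 (Fin.last L, b)
      simpa [e, len m, len n] using this
  obtain ⟨m, n, hmn, h⟩ := Finite.exists_ne_map_eq_of_infinite
    fun n => code (f n).C.G (f n).C.mk' (e (f n))
  rcases lt_or_gt_of_ne hmn with h' | h'
  · exact ⟨m, n, h', key _ _ h⟩
  · exact ⟨n, m, h', key _ _ h.symm⟩

/-- tilings between cuts of width `g` -/
inductive Tiles (g : ℕ) (C : Ch L) : ℕ → ℕ → List (Seg L) → Prop
  | nil (p : ℕ) : C.W p = g → Tiles g C p p []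
  | cons (p p' q : ℕ) (h : p ≤ p') (l : List (Seg L)) : C.W p = g →
      (⟨C, p, p', h⟩ : Seg L) ∈ TT L (g + 1) → Tiles g C p' q l → Tiles g C p q (⟨C, p, p', h⟩ :: l)

lemma Tiles.facts {g : ℕ} {C : Ch L} {p q : ℕ} {l : List (Seg L)} (h : Tiles g C p q l) :
    p ≤ q ∧ C.W p = g ∧ ∀ s ∈ l, s ∈ TT L (g + 1) := by
  induction h with
  | nil p h => exact ⟨le_rfl, h, by simp⟩
  | cons p p' q h l h1 h2 _ ih =>
    refine ⟨h.trans ih.1, h1, fun s hs => ?_⟩
    rcases List.mem_cons.1 hs with rfl | hs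
    · exact h2
    · exact ih.2.2 s hs

lemma Tiles.rm {g : ℕ} (hg : g ≤ 2) {C D : Ch L} {p' q' : ℕ} {l' : List (Seg L)}
    (h' : Tiles g D p' q' l') : ∀ {p q : ℕ} {l : List (Seg L)}, Tiles g C p q l →
      List.SublistForall₂ SR l l' → RM C p q D p' q' := by
  induction h' with
  | nil p' h1 =>
    intro p q l h hs
    cases hs
    cases h with
    | nil _ h2 => exact cut_iso (h2.trans h1.symm) (by omega)
  | cons p' p'' q' hp l' h1 h2 h3 ih =>
    intro p q l h hs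
    have skip : List.SublistForall₂ SR l l' → RM C p q D p' q' := fun hs' => by
      refine (ih h hs').trans ?_
      have w := h3.facts
      exact RM.cat le_rfl w.1 hp w.1 (D.absorb0 (wd_good.1 (by
        have := w.2.1
        unfold Ch.W at this
        omega)) (D.link h2.1 hg h1 w.2.1 h2.2)) (RM.refl D w.1)
    cases hs with
    | nil => exact skip List.SublistForall₂.nil
    | cons_right hs => exact skip hs
    | cons hr hs =>
      cases h with
      | cons _ p1 _ hp1 l1 k1 k2 k3 =>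
        exact RM.cat hp1 k3.facts.1 hp h3.facts.1 hr (ih k3 hs)

lemma exists_tiles {g : ℕ} (C : Ch L) (j : ℕ) : ∀ d p, j = p + d + 1 → C.W p = g →
    (∀ m, p < m → m < j → g ≤ C.W m) →
    ∃ q l, ∃ h : q ≤ j, Tiles g C p q l ∧ (⟨C, q, j, h⟩ : Seg L) ∈ TT L (g + 1) := by
  intro d
  induction d using Nat.strong_induction_on with
  | _ d ih =>
    intro p hd hp hm
    by_cases h : ∃ m, p < m ∧ m < j ∧ C.W m = g
    · classical
      obtain ⟨a1, a2, a3⟩ := Nat.find_spec h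
      obtain ⟨q, l, hq, t1, t2⟩ := ih (j - Nat.find h - 1) (by omega) (Nat.find h) (by omega) a3
        fun m h1 h2 => hm m (by omega) h2
      refine ⟨q, _, hq, Tiles.cons p _ q a1.le l hp ⟨a1, fun m h1 h2 => ?_⟩ t1, t2⟩
      have b1 := Nat.find_min h h2
      have b2 := hm m h1 (lt_trans h2 a2)
      simp only [not_and] at b1
      have := b1 h1 (lt_trans h2 a2)
      show g + 1 ≤ C.W m
      omega
    · refine ⟨p, [], by omega, Tiles.nil p hp, show p < j by omega, fun m h1 h2 => ?_⟩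
      have b2 := hm m h1 h2
      have : C.W m ≠ g := fun e => h ⟨m, h1, h2, e⟩
      show g + 1 ≤ C.W m
      omega

lemma TT_step {g : ℕ} (hg : g ≤ 2) (H : (TT L (g + 1)).PartiallyWellOrderedOn SR) :
    (TT L g).PartiallyWellOrderedOn SR := by
  have H2 := H.prod (H.prod (Set.PartiallyWellOrderedOn.partiallyWellOrderedOn_sublistForall₂ SR H))
  have H3 : {s : Seg L | ∃ p q l, ∃ (h1 : s.i ≤ p) (h2 : q ≤ s.j),
      (⟨s.C, s.i, p, h1⟩ : Seg L) ∈ TT L (g + 1) ∧ Tiles g s.C p q l ∧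
        (⟨s.C, q, s.j, h2⟩ : Seg L) ∈ TT L (g + 1)}.PartiallyWellOrderedOn SR := by
    rw [Set.partiallyWellOrderedOn_iff_exists_lt]
    intro f hf
    choose p q l h1 h2 k1 k2 k3 using hf
    obtain ⟨m, n, hmn, r1, r3, r2⟩ := H2.exists_lt
      (f := fun n => (⟨_, _, _, h1 n⟩, ⟨_, _, _, h2 n⟩, l n))
      fun n => ⟨k1 n, k3 n, (k2 n).facts.2.2⟩
    have a := (k2 m).facts.1
    have b := (k2 n).facts.1
    exact ⟨m, n, hmn, RM.cat (h1 m) (a.trans (h2 m)) (h1 n) (b.trans (h2 n)) r1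
      (RM.cat a (h2 m) b (h2 n) ((k2 n).rm hg (k2 m) r2) r3)⟩
  refine (H.union H3).mono fun s hs => ?_
  by_cases h : ∃ m, s.i < m ∧ m < s.j ∧ s.C.W m = g
  · classical
    right
    obtain ⟨a1, a2, a3⟩ := Nat.find_spec h
    obtain ⟨q, l, hq, t1, t2⟩ := exists_tiles s.C s.j (s.j - Nat.find h - 1) (Nat.find h)
      (by omega) a3 fun m h1 h2 => hs.2 m (by omega) h2
    refine ⟨_, q, l, a1.le, hq, ⟨a1, fun m h1 h2 => ?_⟩, t1, t2⟩
    have b1 := Nat.find_min h h2
    have b2 := hs.2 m h1 (lt_trans h2 a2)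
    simp only [not_and] at b1
    have := b1 h1 (lt_trans h2 a2)
    show g + 1 ≤ s.C.W m
    omega
  · refine Or.inl ⟨hs.1, fun m h1 h2 => ?_⟩
    have b2 := hs.2 m h1 h2
    have : s.C.W m ≠ g := fun e => h ⟨m, h1, h2, e⟩
    omega

theorem chain_wqo (f : ℕ → Ch L) (hf : ∀ n, ∃ M, ∀ u ∈ (f n).U, (f n).α u ≤ M) :
    ∃ m n, m < n ∧ ∃ φ, IsMod (f m).G (f m).U (f m).mk' (f n).G (f n).U (f n).mk' φ := by
  choose M hM using hf
  have H := TT_step (L := L) (g := 0) (by omega) (TT_step (by omega) (TT_step (by omega) TT_three))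
  obtain ⟨m, n, hmn, φ, h, -⟩ := H.exists_lt (f := fun n => ⟨f n, 0, M n + 1, by omega⟩)
    fun n => ⟨by simp, fun _ _ _ => Nat.zero_le _⟩
  have e : ∀ n, (f n).S 0 (M n + 1) = (f n).U := fun n =>
    Set.ext fun u => ⟨fun h => h.1, fun h => ⟨h, by have := hM n u h; omega, Nat.zero_le _⟩⟩
  simp only [e] at h
  exact ⟨m, n, hmn, φ, h⟩

end Pool.Agent.Lib.NC4b
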