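import Mathlib
import Pool.Agent.Lib.NC4b.Mod

set_option autoImplicit false

namespace Pool.Agent.Lib.NC4b

/-- marked graphs -/
structure MG where
  V : Type
  G : SimpleGraph V
  U : Set V
  mk' : V → Prop

/-- change of the vertex set -/
def MG.res (A : MG) (S : Set A.V) : MG := ⟨A.V, A.G, S, A.mk'⟩

/-- order on marked graphs -/
def MR (A B : MG) : Prop := ∃ φ, IsMod A.G A.U A.mk' B.G B.U B.mk' φ

instance : IsPreorder MG MR where
  refl A := by
    obtain ⟨φ, h, -⟩ := IsMod.refl (G := A.G) (U := A.U) (mk := A.mk')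
    exact ⟨φ, h⟩
  trans _ _ _ h h' := by
    obtain ⟨φ, h⟩ := h
    obtain ⟨ψ, h'⟩ := h'
    exact ⟨_, h.trans h'⟩

/-- splitting into connected parts -/
inductive Parts (A : MG) : Set A.V → List MG → Prop
  | nil (U : Set A.V) : U = ∅ → Parts A U []
  | cons (U S T : Set A.V) (l : List MG) (B : MG) : U = S ∪ T → B = A.res S →
      (∀ u ∈ S, ∀ v ∈ T, u ≠ v ∧ ¬ A.G.Adj u v) → Parts A T l → Parts A U (B :: l)

lemma parts_edge {V : Type} {G : SimpleGraph V} {S T : Set V}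
    (h : ∀ u ∈ S, ∀ v ∈ T, u ≠ v ∧ ¬ G.Adj u v) :
    ∀ u ∈ S ∪ T, ∀ v ∈ S ∪ T, G.Adj u v → (u ∈ S ∧ v ∈ S) ∨ (u ∈ T ∧ v ∈ T) := by
  rintro u (hu | hu) v (hv | hv) huv
  · exact Or.inl ⟨hu, hv⟩
  · exact absurd huv (h u hu v hv).2
  · exact absurd huv.symm (h v hv u hu).2
  · exact Or.inr ⟨hu, hv⟩

lemma Parts.mr {A B : MG} {W : Set B.V} {l' : List MG} (h' : Parts B W l') :
    ∀ {U : Set A.V} {l : List MG}, Parts A U l → List.SublistForall₂ MR l l' →
      ∃ φ, IsMod A.G U A.mk' B.G W B.mk' φ := by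
  induction h' with
  | nil W hW =>
    intro U l h hs
    cases hs
    cases h with
    | nil _ hU =>
      subst hU
      refine ⟨fun _ => none, ?_, ?_, ?_, ?_, ?_, ?_, ?_⟩ <;> simp
  | cons W S' T' l' B' hW hB hST h3 ih =>
    intro U l h hs
    have skip : List.SublistForall₂ MR l l' → ∃ φ, IsMod A.G U A.mk' B.G W B.mk' φ := fun hs' => by
      obtain ⟨φ, hφ⟩ := ih h hs'
      exact ⟨φ, hφ.mono (hW ▸ Set.subset_union_right)⟩
    cases hs with
    | nil => exact skip List.SublistForall₂.nil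
    | cons_right hs => exact skip hs
    | cons hr hs =>
      cases h with
      | cons _ S T l1 _ hU hA k1 k2 =>
        subst hA hB hU hW
        obtain ⟨φ, hφ⟩ := hr
        obtain ⟨ψ, hψ⟩ := ih k2 hs
        obtain ⟨χ, hχ, -⟩ := IsMod.glue (G := A.G) (G' := B.G) (U1 := S) (W1 := S') (mk := A.mk')
          (mk' := B.mk') hφ hψ (parts_edge k1) (parts_edge hST)
          (fun x h1 h2 => absurd rfl (hST x h1 x h2).1) (fun x h1 h2 => absurd rfl (k1 x h1 x h2).1)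
        exact ⟨χ, hχ⟩

lemma exists_parts (A : MG) : ∀ n (U : Set A.V), U.Finite → U.ncard = n →
    ∃ l, Parts A U l ∧ ∀ B ∈ l, ∃ S ⊆ U, B = A.res S ∧ ∀ u ∈ S, ∀ v ∈ S, RT A.G S u v := by
  intro n
  induction n using Nat.strong_induction_on with
  | _ n ih =>
    intro U hU hn
    rcases U.eq_empty_or_nonempty with h | ⟨x, hx⟩
    · exact ⟨[], Parts.nil U h, by simp⟩
    have sub : {z | RT A.G U x z} ⊆ U := fun z hz => RT.mem hz hx
    obtain ⟨l, h1, h2⟩ := ih (U \ {z | RT A.G U x z}).ncard (by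
      rw [← hn]
      refine Set.ncard_lt_ncard ⟨Set.sdiff_subset, fun h => (h hx).2 (RT.refl _ _)⟩ hU) _
      (hU.subset Set.sdiff_subset) rfl
    refine ⟨_, Parts.cons U {z | RT A.G U x z} _ l _ (Set.union_sdiff_cancel sub).symm rfl ?_ h1, ?_⟩
    · rintro u hu v ⟨hv, hv'⟩
      exact ⟨fun e => hv' (e ▸ hu), fun e => hv' (RT.trans hu (RT.single e (sub hu) hv))⟩
    · intro B hB
      rcases List.mem_cons.1 hB with rfl | hB
      · exact ⟨_, sub, rfl, fun u hu v hv => (RT.self hu).symm.trans (RT.self hv)⟩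
      · obtain ⟨S, s1, s2⟩ := h2 B hB
        exact ⟨S, s1.trans Set.sdiff_subset, s2⟩

theorem comp_wqo (Z : Set MG) (h1 : ∀ A ∈ Z, A.U.Finite) (h2 : ∀ A ∈ Z, ∀ S ⊆ A.U, A.res S ∈ Z)
    (h3 : {A | A ∈ Z ∧ ∀ u ∈ A.U, ∀ v ∈ A.U, RT A.G A.U u v}.PartiallyWellOrderedOn MR) :
    Z.PartiallyWellOrderedOn MR := by
  have H := Set.PartiallyWellOrderedOn.partiallyWellOrderedOn_sublistForall₂ MR h3
  rw [Set.partiallyWellOrderedOn_iff_exists_lt]
  intro f hf
  choose l k1 k2 using fun n => exists_parts (f n) _ (f n).U (h1 _ (hf n)) rfl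
  obtain ⟨m, n, hmn, h⟩ := H.exists_lt (f := l) fun n B hB => by
    obtain ⟨S, s1, rfl, s2⟩ := k2 n B hB
    exact ⟨h2 _ (hf n) S s1, s2⟩
  exact ⟨m, n, hmn, (k1 n).mr (k1 m) h⟩

end Pool.Agent.Lib.NC4b
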