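import Mathlib
import Pool.Agent.Lib.NC4b.Book

set_option autoImplicit false

namespace Pool.Agent.Lib.NC4b

/-- incidence in the radial graph of a triangulated strip -/
def SAdj (s : ℕ → Bool) (x y : ℕ) : Prop :=
  x % 2 = 0 ∧ y % 2 = 1 ∧ (y = 1 ∨ (x ≤ y + 1 ∧ ∀ m, x < 2 * m → 2 * m < y → s m ≠ s (x / 2)))

/-- the infinite strip graph -/
def Γ (s : ℕ → Bool) : SimpleGraph ℕ where
  Adj x y := SAdj s x y ∨ SAdj s y x
  symm := ⟨fun _ _ h => h.symm⟩
  loopless := ⟨fun x h => by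
    rcases h with h | h <;>
    · have := h.1
      have := h.2.1
      omega⟩

/-- the finite strip graph with `N` triangles -/
def strip (s : ℕ → Bool) (N : ℕ) : FinGraph := ⟨2 * N + 3, (Γ s).comap Fin.val⟩

/-- admissible side sequences -/
structure Ok (s : ℕ → Bool) : Prop where
  h01 : s 0 ≠ s 1
  inf : ∀ j b, ∃ t, j < t ∧ s t = b

/-- next index on the same side -/
noncomputable def nx (s : ℕ → Bool) (j : ℕ) : ℕ := sInf {t | j < t ∧ s t = s j}

/-- right end of the interval of a vertex -/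
noncomputable def bet (s : ℕ → Bool) (x : ℕ) : ℕ := if x % 2 = 0 then 2 * nx s (x / 2) - 2 else x

/-- side of a vertex -/
def sd (s : ℕ → Bool) (x : ℕ) : Bool := s ((x + 1) / 2)

variable {s : ℕ → Bool}

lemma Ok.nx_spec (h : Ok s) (j : ℕ) : j < nx s j ∧ s (nx s j) = s j :=
  Nat.sInf_mem (s := {t | j < t ∧ s t = s j}) (h.inf j (s j))

lemma nx_le {j t : ℕ} (h1 : j < t) (h2 : s t = s j) : nx s j ≤ t :=
  Nat.sInf_le (s := {t | j < t ∧ s t = s j}) ⟨h1, h2⟩

lemma bet_odd {x : ℕ} (h : x % 2 = 1) : bet s x = x := if_neg (by omega)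

lemma bet_even {x : ℕ} (h : x % 2 = 0) : bet s x = 2 * nx s (x / 2) - 2 := if_pos h

lemma sd_even {x : ℕ} (h : x % 2 = 0) : sd s x = s (x / 2) := by
  unfold sd
  congr 1
  omega

lemma Ok.le_bet (h : Ok s) (x : ℕ) : x ≤ bet s x := by
  rcases Nat.mod_two_eq_zero_or_one x with e | e
  · have := (h.nx_spec (x / 2)).1
    rw [bet_even e]
    omega
  · rw [bet_odd e]

lemma Ok.bet_lt (h : Ok s) {x y : ℕ} (e : sd s x = sd s y) (l : x < y) : bet s x < y := by
  rcases Nat.mod_two_eq_zero_or_one x with e' | e'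
  · rw [sd_even e'] at e
    have := nx_le (s := s) (j := x / 2) (t := (y + 1) / 2) (by omega) e.symm
    have := (h.nx_spec (x / 2)).1
    rw [bet_even e']
    omega
  · rw [bet_odd e']
    exact l

lemma Ok.cut_uniq (h : Ok s) {x y m : ℕ} (e : sd s x = sd s y) (h1 : x ≤ m) (h2 : m ≤ bet s x)
    (h3 : y ≤ m) (h4 : m ≤ bet s y) : x = y := by
  rcases lt_trichotomy x y with l | l | l
  · have := h.bet_lt e l
    omega
  · exact l
  · have := h.bet_lt e.symm l
    omega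

lemma Ok.adj_iff (h : Ok s) {x y : ℕ} (hy : y ≠ 1) :
    SAdj s x y ↔ x % 2 = 0 ∧ y % 2 = 1 ∧ x ≤ y + 1 ∧ y ≤ bet s x + 1 := by
  have k := h.nx_spec (x / 2)
  constructor
  · rintro ⟨h1, h2, h3 | ⟨h3, h4⟩⟩
    · exact absurd h3 hy
    refine ⟨h1, h2, h3, ?_⟩
    rw [bet_even h1]
    by_contra hh
    exact h4 (nx s (x / 2)) (by omega) (by omega) k.2
  · rintro ⟨h1, h2, h3, h4⟩
    refine ⟨h1, h2, Or.inr ⟨h3, fun m m1 m2 e => ?_⟩⟩
    have := nx_le (s := s) (j := x / 2) (t := m) (by omega) e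
    rw [bet_even h1] at h4
    omega

lemma adj_hub {x : ℕ} (h : x % 2 = 0) : (Γ s).Adj x 1 := Or.inl ⟨h, rfl, Or.inl rfl⟩

lemma adj_par {x y : ℕ} (h : (Γ s).Adj x y) : x % 2 ≠ y % 2 := by
  rcases h with h | h <;>
  · have := h.1
    have := h.2.1
    omega

lemma sadj_of_adj {x y : ℕ} (h : (Γ s).Adj x y) (hy : y % 2 = 1) : SAdj s x y := by
  rcases h with h | h
  · exact h
  · have := h.1
    omega

lemma Ok.edge_le (h : Ok s) {x y : ℕ} (hx : x ≠ 1) (hy : y ≠ 1) (e : (Γ s).Adj x y) :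
    x ≤ bet s y + 1 := by
  rcases e with e | e
  · obtain ⟨a1, a2, a3, a4⟩ := (h.adj_iff hy).1 e
    rw [bet_odd a2]
    exact a3
  · exact ((h.adj_iff hx).1 e).2.2.2

lemma Ok.edge_cases (h : Ok s) {x y : ℕ} (hx : x ≠ 1) (hy : y ≠ 1) (e : (Γ s).Adj x y) :
    (sd s x = sd s y ∧ (bet s x + 1 = y ∨ bet s y + 1 = x)) ∨
      (sd s x ≠ sd s y ∧ x ≤ bet s y ∧ y ≤ bet s x) := by
  have key : ∀ x y, y ≠ 1 → SAdj s x y → (sd s x = sd s y ∧ (bet s x + 1 = y ∨ bet s y + 1 = x)) ∨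
      (sd s x ≠ sd s y ∧ x ≤ bet s y ∧ y ≤ bet s x) := by
    intro x y hy e
    obtain ⟨a1, a2, a3, a4⟩ := (h.adj_iff hy).1 e
    have b1 := bet_odd (s := s) a2
    by_cases c : sd s x = sd s y
    · refine Or.inl ⟨c, ?_⟩
      have := h.bet_lt c
      omega
    · refine Or.inr ⟨c, ?_, ?_⟩
      · by_contra hh
        refine c ?_
        unfold sd
        congr 1
        omega
      · by_contra hh
        refine c ?_
        have k := h.nx_spec (x / 2)
        rw [bet_even a1] at a4 hh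
        rw [sd_even a1, ← k.2]
        unfold sd
        congr 1
        omega
  rcases e with e | e
  · exact key x y hy e
  · rcases key y x hx e with ⟨a, b⟩ | ⟨a, b, c⟩
    · exact Or.inl ⟨a.symm, b.symm⟩
    · exact Or.inr ⟨a.symm, c, b⟩

lemma Ok.rail (h : Ok s) {m : ℕ} (hm : 2 ≤ m) (b : Bool) :
    ∃ x, x ≠ 1 ∧ sd s x = b ∧ x ≤ m ∧ m ≤ bet s x := by
  have ex : ∃ j, j ≤ m / 2 ∧ s j = b := by
    by_cases e : s 0 = b
    · exact ⟨0, by omega, e⟩
    · refine ⟨1, by omega, ?_⟩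
      have := h.h01
      cases h0 : s 0 <;> cases h1 : s 1 <;> cases b <;> simp_all
  obtain ⟨j0, j1, j2⟩ := ex
  let j := Nat.findGreatest (fun j => s j = b) (m / 2)
  have a1 : s j = b := Nat.findGreatest_spec (P := fun j => s j = b) j1 j2
  have a2 : j ≤ m / 2 := Nat.findGreatest_le _
  have k := h.nx_spec j
  have a3 : m / 2 < nx s j := by
    by_contra hh
    exact Nat.findGreatest_is_greatest (P := fun j => s j = b) k.1 (by omega) (k.2.trans a1)
  have e1 : 2 * j / 2 = j := by omega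
  by_cases c : m ≤ 2 * nx s j - 2
  · refine ⟨2 * j, by omega, ?_, by omega, ?_⟩
    · rw [sd_even (by omega), e1, a1]
    · rw [bet_even (by omega), e1]
      exact c
  · refine ⟨m, by omega, ?_, le_rfl, h.le_bet m⟩
    rw [← a1, ← k.2]
    unfold sd
    congr 1
    omega

lemma cut_odd {x m : ℕ} (hx : x % 2 = 1) (h1 : x ≤ m) (h2 : m ≤ bet s x) : x = m := by
  rw [bet_odd hx] at h2
  omega

lemma Ok.rail_even (h : Ok s) {m : ℕ} (hm : 2 ≤ m) (hm' : m % 2 = 0) (b : Bool) :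
    ∃ x, x % 2 = 0 ∧ sd s x = b ∧ x ≤ m ∧ m ≤ bet s x := by
  obtain ⟨x, -, h1, h2, h3⟩ := h.rail hm b
  refine ⟨x, ?_, h1, h2, h3⟩
  by_contra hh
  have := cut_odd (s := s) (by omega) h2 h3
  omega

lemma Ok.odd_cut_adj (h : Ok s) {x y m : ℕ} (hm : m % 2 = 1) (hx : x ≠ 1) (hy : y ≠ 1)
    (hxy : x ≠ y) (h1 : x ≤ m) (h2 : m ≤ bet s x) (h3 : y ≤ m) (h4 : m ≤ bet s y) :
    (Γ s).Adj x y := by
  have ev : ∀ z, z ≠ m → z ≤ m → m ≤ bet s z → z % 2 = 0 := fun z z1 z2 z3 => by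
    by_contra hh
    exact z1 (cut_odd (by omega) z2 z3)
  by_cases c1 : x = m
  · subst c1
    exact Or.inr ((h.adj_iff hx).2 ⟨ev y hxy.symm h3 h4, hm, by omega, by omega⟩)
  by_cases c2 : y = m
  · subst c2
    exact Or.inl ((h.adj_iff hy).2 ⟨ev x hxy h1 h2, hm, by omega, by omega⟩)
  exfalso
  have a1 : sd s x ≠ sd s m := fun e => c1 (h.cut_uniq e h1 h2 le_rfl (h.le_bet m))
  have a2 : sd s y ≠ sd s m := fun e => c2 (h.cut_uniq e h3 h4 le_rfl (h.le_bet m))
  refine hxy (h.cut_uniq ?_ h1 h2 h3 h4)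
  cases h0 : sd s x <;> cases h1 : sd s y <;> cases h2 : sd s m <;> simp_all

lemma Ok.step (h : Ok s) {x y m : ℕ} (hx : x ≠ 1) (hy : y ≠ 1) (e : sd s x = sd s y) (hxy : x ≠ y)
    (h1 : x ≤ m) (h2 : m ≤ bet s x) (h3 : y ≤ m + 1) (h4 : m + 1 ≤ bet s y) :
    y = m + 1 ∧ (Γ s).Adj x y := by
  have a1 := h.bet_lt e
  have a2 := h.bet_lt e.symm
  have a3 : y = m + 1 := by omega
  have a4 : bet s x = m := by omega
  refine ⟨a3, ?_⟩
  rcases Nat.mod_two_eq_zero_or_one x with c | c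
  · have := bet_even (s := s) c
    have := (h.nx_spec (x / 2)).1
    exact Or.inl ((h.adj_iff hy).2 ⟨c, by omega, by omega, by omega⟩)
  · have := bet_odd (s := s) c
    exact Or.inr ((h.adj_iff hx).2 ⟨by omega, c, by omega, by omega⟩)

lemma Ok.meet (h : Ok s) {X : Set ℕ} (hX : 1 ∉ X) {x y m : ℕ} (r : RT (Γ s) X x y) (hx : x ∈ X)
    (h1 : x ≤ m) (h2 : m ≤ bet s y) : ∃ z ∈ X, z ≤ m ∧ m ≤ bet s z := by
  by_contra hh
  push Not at hh
  have := r.inv (fun z => bet s z < m) (fun a b ha hb hab k => hh b hb (by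
    have := h.edge_le (fun e => hX (e ▸ hb)) (fun e => hX (e ▸ ha)) hab.symm
    omega)) (hh x hx h1)
  omega

lemma Ok.three (h : Ok s) {y : ℕ} (h1 : y % 2 = 1) (h2 : y ≠ 1) :
    SAdj s (y + 1) y ∧ SAdj s (y - 1) y ∧ ∃ o, o < y - 1 ∧ SAdj s o y := by
  refine ⟨(h.adj_iff h2).2 ⟨by omega, h1, le_rfl, ?_⟩, (h.adj_iff h2).2 ⟨by omega, h1, by omega, ?_⟩,
    ?_⟩
  · have := h.le_bet (y + 1)
    omega
  · have := h.le_bet (y - 1)
    omega
  · obtain ⟨o, o1, o2, o3, o4⟩ := h.rail_even (m := y - 1) (by omega) (by omega) (!sd s (y - 1))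
    have : o ≠ y - 1 := by
      rintro rfl
      simp at o2
    exact ⟨o, by omega, (h.adj_iff h2).2 ⟨o1, h1, by omega, by omega⟩⟩

lemma Ok.four (h : Ok s) {y a b c z : ℕ} (h2 : y ≠ 1) (ha : SAdj s a y) (hb : SAdj s b y)
    (hc : SAdj s c y) (hz : SAdj s z y) (ab : a ≠ b) (ac : a ≠ c) (bc : b ≠ c) :
    z = a ∨ z = b ∨ z = c := by
  have key : ∀ p q, SAdj s p y → SAdj s q y → sd s p = sd s q → p = y + 1 ∨ q = y + 1 ∨ p = q := by
    intro p q hp hq e
    obtain ⟨p1, p2, p3, p4⟩ := (h.adj_iff h2).1 hp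
    obtain ⟨q1, q2, q3, q4⟩ := (h.adj_iff h2).1 hq
    by_contra hh
    push Not at hh
    exact hh.2.2 (h.cut_uniq (m := y - 1) e (by omega) (by omega) (by omega) (by omega))
  have k1 := key a b ha hb
  have k2 := key a c ha hc
  have k3 := key b c hb hc
  have k4 := key z a hz ha
  have k5 := key z b hz hb
  have k6 := key z c hz hc
  cases e1 : sd s a <;> cases e2 : sd s b <;> cases e3 : sd s c <;> cases e4 : sd s z <;>
    simp only [e1, e2, e3, e4, forall_const, Bool.false_eq_true, Bool.true_eq_false,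
      false_imp_iff] at k1 k2 k3 k4 k5 k6 <;> omega

lemma Ok.share_iff (h : Ok s) (i : ℕ) :
    (∃ x, SAdj s x (2 * i + 3) ∧ SAdj s x (2 * i + 9)) ↔ s (i + 3) = s (i + 4) := by
  constructor
  · rintro ⟨x, h1, h2⟩
    obtain ⟨p1, p2, p3, p4⟩ := (h.adj_iff (by omega)).1 h1
    obtain ⟨q1, q2, q3, q4⟩ := (h.adj_iff (by omega)).1 h2
    rw [bet_even p1] at q4
    have a1 : s (i + 3) ≠ s (x / 2) := fun e => by
      have := nx_le (s := s) (j := x / 2) (t := i + 3) (by omega) e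
      omega
    have a2 : s (i + 4) ≠ s (x / 2) := fun e => by
      have := nx_le (s := s) (j := x / 2) (t := i + 4) (by omega) e
      omega
    cases h0 : s (i + 3) <;> cases h1 : s (i + 4) <;> cases h2 : s (x / 2) <;> simp_all
  · intro e
    obtain ⟨o, o1, o2, o3, o4⟩ := h.rail_even (m := 2 * i + 4) (by omega) (by omega) (!s (i + 3))
    have k := h.nx_spec (o / 2)
    rw [sd_even o1] at o2
    have b := bet_even (s := s) o1
    have a1 : nx s (o / 2) ≠ i + 3 := fun e' => by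
      rw [e', o2] at k
      simp at k
    have a2 : nx s (o / 2) ≠ i + 4 := fun e' => by
      rw [e', o2, e] at k
      simp at k
    exact ⟨o, (h.adj_iff (by omega)).2 ⟨o1, by omega, by omega, by omega⟩,
      (h.adj_iff (by omega)).2 ⟨o1, by omega, by omega, by omega⟩⟩

lemma Ok.book (h : Ok s) :
    Book (Γ s) {x | x ≠ 1} fun x => if sd s x then (x : ℤ) + 1 else -((x : ℤ) + 1) := by
  constructor
  · intro u _ v _ e
    split_ifs at e <;> omega
  · intro a ha b hb c hc d hd hab hcd l1 l2 l3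
    have k1 := h.edge_cases ha hb hab
    have k2 := h.edge_cases hc hd hcd
    have i1 := h.bet_lt (x := a) (y := c)
    have i2 := h.bet_lt (x := c) (y := a)
    have i3 := h.bet_lt (x := b) (y := d)
    have i4 := h.bet_lt (x := d) (y := b)
    have i5 := h.bet_lt (x := b) (y := c)
    have i6 := h.bet_lt (x := c) (y := b)
    have j1 := h.le_bet a
    have j2 := h.le_bet b
    have j3 := h.le_bet c
    have j4 := h.le_bet d
    cases e1 : sd s a <;> cases e2 : sd s b <;> cases e3 : sd s c <;> cases e4 : sd s d <;>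
      simp only [e1, e2, e3, e4, forall_const, Bool.false_eq_true, Bool.true_eq_false,
        false_imp_iff, if_true, if_false, ne_eq, not_true, not_false_iff, true_and, false_and,
        or_false, false_or] at k1 k2 i1 i2 i3 i4 i5 i6 l1 l2 l3 <;> omega

lemma strip_up (s : ℕ → Bool) (N : ℕ) :
    ∃ φ, IsMod (strip s N).2 Set.univ tr (Γ s) (Set.Iio (2 * N + 3)) tr φ := by
  obtain ⟨φ, h, -⟩ := IsMod.of_inj (G := (strip s N).2) (G' := Γ s) (U := Set.univ)
    (U' := Set.Iio (2 * N + 3)) (mk := tr) (mk' := tr) Fin.val (fun _ _ _ _ e => Fin.ext e)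
    (fun u _ => u.2) (fun _ _ _ _ => Iff.rfl) (fun _ _ => Iff.rfl)
  exact ⟨φ, h⟩

lemma strip_down (s : ℕ → Bool) (N : ℕ) :
    ∃ φ, IsMod (Γ s) (Set.Iio (2 * N + 3)) tr (strip s N).2 Set.univ tr φ := by
  have v : ∀ u ∈ Set.Iio (2 * N + 3), (Fin.ofNat (2 * N + 3) u).val = u :=
    fun u hu => Nat.mod_eq_of_lt hu
  obtain ⟨φ, h, -⟩ := IsMod.of_inj (G := Γ s) (G' := (strip s N).2) (U' := Set.univ)
    (U := Set.Iio (2 * N + 3)) (mk := tr) (mk' := tr) (Fin.ofNat (2 * N + 3))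
    (fun a ha b hb e => by rw [← v a ha, ← v b hb, e]) (fun _ _ => trivial)
    (fun a ha b hb => by
      show _ ↔ (Γ s).Adj (Fin.ofNat (2 * N + 3) a).val (Fin.ofNat (2 * N + 3) b).val
      rw [v a ha, v b hb]) (fun _ _ => Iff.rfl)
  exact ⟨φ, h⟩

lemma IndMinor.to_strip {H : FinGraph} {N : ℕ} (h : IndMinor H (strip s N)) :
    ∃ φ, IsMod H.2 Set.univ tr (Γ s) (Set.Iio (2 * N + 3)) tr φ := by
  obtain ⟨φ, h1⟩ := h.isMod
  obtain ⟨ψ, h2⟩ := strip_up s N
  exact ⟨_, h1.trans h2⟩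

theorem Ok.planar (h : Ok s) {H : FinGraph} {N : ℕ} (m : IndMinor H (strip s N)) : Planar H := by
  obtain ⟨φ, m⟩ := m.to_strip
  obtain ⟨q, hq⟩ := h.book.of_mod m
  refine planar_of_book hq fun u v hu hv => ?_
  simp only [Set.mem_ofPred_eq, Set.mem_univ, true_and, not_forall, not_not, ne_eq] at hu hv
  obtain ⟨x, hx, rfl⟩ := hu
  obtain ⟨y, hy, rfl⟩ := hv
  exact Option.some.inj (hx.symm.trans hy)

end Pool.Agent.Lib.NC4b
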