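import Mathlib
import Pool.Agent.Lib.NC4b.Strip

set_option autoImplicit false

namespace Pool.Agent.Lib.NC4b

lemma affine_of_steps (T : ℕ → ℕ) (N : ℕ) (inj : ∀ i < N, ∀ j < N, T i = T j → i = j)
    (st : ∀ i, i + 1 < N → T (i + 1) = T i + 2 ∨ T (i + 1) + 2 = T i) :
    (∀ i < N, T i = T 0 + 2 * i) ∨ ∀ i < N, T i + 2 * i = T 0 := by
  by_cases h1 : 1 < N
  swap
  · left
    intro i hi
    obtain rfl : i = 0 := by omega
    rfl
  rcases st 0 h1 with h | h
  · left
    have key : ∀ i, i + 1 < N → T i = T 0 + 2 * i ∧ T (i + 1) = T 0 + 2 * (i + 1) := by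
      intro i
      induction i with
      | zero => exact fun _ => ⟨rfl, h⟩
      | succ i ih =>
        intro hi
        have a := ih (by omega)
        have b := st (i + 1) hi
        have c := inj i (by omega) (i + 1 + 1) hi
        omega
    intro i hi
    rcases i with _ | i
    · rfl
    · exact (key i hi).2
  · right
    have key : ∀ i, i + 1 < N → T i + 2 * i = T 0 ∧ T (i + 1) + 2 * (i + 1) = T 0 := by
      intro i
      induction i with
      | zero => exact fun _ => ⟨rfl, h⟩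
      | succ i ih =>
        intro hi
        have a := ih (by omega)
        have b := st (i + 1) hi
        have c := inj i (by omega) (i + 1 + 1) hi
        omega
    intro i hi
    rcases i with _ | i
    · rfl
    · exact (key i hi).2

section
variable {s s' : ℕ → Bool} {N N' : ℕ} {φ : ℕ → Option ℕ}

lemma rig_hub (hs : Ok s) (hs' : Ok s')
    (m : IsMod (Γ s) (Set.Iio (2 * N + 3)) tr (Γ s') (Set.Iio (2 * N' + 3)) tr φ) {i : ℕ}
    (hi : i + 3 < N) (hD : s (i + 3) ≠ s (i + 4)) : φ 1 = some 1 := by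
  obtain ⟨q, hq⟩ := hs'.book.of_mod m
  have K : ∀ y, y % 2 = 1 → y ≠ 1 → y < 2 * N + 3 →
      ∃ w, φ 1 = some w ∧ (w = 1 ∨ w = y ∨ SAdj s w y) := by
    intro y y1 y2 y3
    by_contra hh
    push Not at hh
    have mem : ∀ u, u < 2 * N + 3 → (u = 1 ∨ u = y ∨ SAdj s u y) →
        u ∈ {u | u ∈ Set.Iio (2 * N + 3) ∧ ∀ x, φ x = some u → x ∈ {x | x ≠ 1}} := by
      intro u u1 u2
      refine ⟨u1, fun x hx e => ?_⟩
      subst e
      have := hh u hx
      tauto
    obtain ⟨a1, a2, o, o1, o2⟩ := hs.three y1 y2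
    exact hq.no_k23 (u := 1) (v := y) (a := y + 1) (b := y - 1) (c := o)
      (mem _ (by omega) (Or.inl rfl)) (mem _ y3 (Or.inr (Or.inl rfl)))
      (mem _ (by omega) (Or.inr (Or.inr a1))) (mem _ (by omega) (Or.inr (Or.inr a2)))
      (mem _ (by omega) (Or.inr (Or.inr o2))) y2.symm (by omega) (by omega) (by omega)
      (adj_hub a1.1).symm (adj_hub a2.1).symm (adj_hub o2.1).symm (Or.inr a1) (Or.inr a2)
      (Or.inr o2)
  obtain ⟨w, h1, h2⟩ := K (2 * i + 3) (by omega) (by omega) (by omega)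
  obtain ⟨w', h3, h4⟩ := K (2 * i + 9) (by omega) (by omega) (by omega)
  obtain rfl : w = w' := Option.some.inj (h1.symm.trans h3)
  rcases h2 with rfl | rfl | h2
  · exact h1
  · rcases h4 with h4 | h4 | h4
    · omega
    · omega
    · have := h4.1
      omega
  · rcases h4 with rfl | rfl | h4
    · exact h1
    · have := h2.1
      omega
    · exact absurd ((hs.share_iff i).1 ⟨w, h2, h4⟩) hD

lemma fiber_single {V : Type} {G : SimpleGraph V} {U : Set V} {mk : V → Prop} {W : Set ℕ}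
    {mk' : ℕ → Prop} {ψ : ℕ → Option V} (m : IsMod G U mk (Γ s) W mk' ψ) {u : V}
    (h : ∀ x, ψ x = some u → x % 2 = 1) {x y : ℕ} (hx : ψ x = some u) (hy : ψ y = some u) :
    x = y :=
  (m.conn x y u hx hy).inv (fun z => x = z) (fun a b ha hb hab _ => by
    have := adj_par hab
    have := h a ha
    have := h b hb
    omega) rfl

theorem rig (hs : Ok s) (hs' : Ok s')
    (m : IsMod (Γ s) (Set.Iio (2 * N + 3)) tr (Γ s') (Set.Iio (2 * N' + 3)) tr φ) {i0 : ℕ}
    (hi : i0 + 3 < N) (hD : s (i0 + 3) ≠ s (i0 + 4)) :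
    ∃ c, (c + N ≤ N' ∧ ∀ j, 3 ≤ j → j < N → s j ≠ s (j + 1) → s' (c + j) ≠ s' (c + j + 1)) ∨
      (N ≤ c + 1 ∧ c < N' ∧
        ∀ j, 3 ≤ j → j < N → s j ≠ s (j + 1) → s' (c + 3 - j) ≠ s' (c + 3 - j + 1)) := by
  have hub := rig_hub hs hs' m hi hD
  have odd : ∀ y, y % 2 = 1 → y ≠ 1 → ∀ x, φ x = some y → x % 2 = 1 := by
    intro y y1 y2 x hx
    by_contra hh
    have := adj_par (m.adj2 x 1 y 1 hx hub (adj_hub (by omega)) y2)
    omega
  have n1 : ∀ y, y ≠ 1 → ∀ x, φ x = some y → x ≠ 1 := by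
    rintro y y2 x hx rfl
    exact y2 (Option.some.inj (hx.symm.trans hub))
  have ex : ∀ i, ∃ t, i < N → φ t = some (2 * i + 3) := fun i => by
    by_cases h : i < N
    · obtain ⟨t, ht⟩ := m.surj (2 * i + 3) (by simp only [Set.mem_Iio]; omega)
      exact ⟨t, fun _ => ht⟩
    · exact ⟨0, fun h' => absurd h' h⟩
  choose T hT using ex
  have T1 : ∀ i < N, T i % 2 = 1 := fun i hi => odd _ (by omega) (by omega) _ (hT i hi)
  have T2 : ∀ i < N, T i ≠ 1 := fun i hi => n1 _ (by omega) _ (hT i hi)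
  have T3 : ∀ i < N, T i < 2 * N' + 3 := fun i hi => (m.dom _ _ (hT i hi)).1
  have lift : ∀ i < N, ∀ a, SAdj s a (2 * i + 3) → ∃ x, φ x = some a ∧ SAdj s' x (T i) := by
    intro i hi a ha
    obtain ⟨a1, a2, a3, a4⟩ := (hs.adj_iff (by omega)).1 ha
    obtain ⟨x, y, hx, hy, hxy⟩ := m.adj1 a (by simp only [Set.mem_Iio]; omega) (2 * i + 3)
      (by simp only [Set.mem_Iio]; omega) (Or.inl ha)
    rw [fiber_single m (odd _ (by omega) (by omega)) hy (hT i hi)] at hxy
    exact ⟨x, hx, sadj_of_adj hxy (T1 i hi)⟩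
  have nbr : ∀ i < N, ∀ z, SAdj s' z (T i) → ∃ a, φ z = some a ∧ SAdj s a (2 * i + 3) := by
    intro i hi z hz
    obtain ⟨a1, a2, o, o1, o2⟩ := hs.three (y := 2 * i + 3) (by omega) (by omega)
    obtain ⟨x1, p1, q1⟩ := lift i hi _ a1
    obtain ⟨x2, p2, q2⟩ := lift i hi _ a2
    obtain ⟨x3, p3, q3⟩ := lift i hi _ o2
    have ne : ∀ x y a b, φ x = some a → φ y = some b → a ≠ b → x ≠ y := by
      rintro x y a b hx hy hab rfl
      exact hab (Option.some.inj (hx.symm.trans hy))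
    rcases hs'.four (T2 i hi) q1 q2 q3 hz (ne _ _ _ _ p1 p2 (by omega))
      (ne _ _ _ _ p1 p3 (by omega)) (ne _ _ _ _ p2 p3 (by omega)) with rfl | rfl | rfl
    · exact ⟨_, p1, a1⟩
    · exact ⟨_, p2, a2⟩
    · exact ⟨_, p3, o2⟩
  have inj : ∀ i < N, ∀ j < N, T i = T j → i = j := by
    intro i hi j hj e
    have a := hT i hi
    rw [e, hT j hj] at a
    have := Option.some.inj a
    omega
  have far : ∀ i < N, ∀ j < N, ∀ a b, a ≠ b → SAdj s a (2 * i + 3) → SAdj s a (2 * j + 3) →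
      SAdj s b (2 * i + 3) → SAdj s b (2 * j + 3) → T j < T i + 4 := by
    intro i hi j hj a b hab a1 a2 b1 b2
    by_contra hh
    have e1 := T1 i hi
    have mt : ∀ a, SAdj s a (2 * i + 3) → SAdj s a (2 * j + 3) →
        ∃ z, φ z = some a ∧ z ≠ 1 ∧ z ≤ T i + 2 ∧ T i + 2 ≤ bet s' z := by
      intro a a1 a2
      have na : a ≠ 1 := by
        have := a1.1
        omega
      obtain ⟨x, hx, hx'⟩ := lift i hi a a1
      obtain ⟨y, hy, hy'⟩ := lift j hj a a2
      obtain ⟨-, -, c1, -⟩ := (hs'.adj_iff (T2 i hi)).1 hx'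
      obtain ⟨-, -, -, c2⟩ := (hs'.adj_iff (T2 j hj)).1 hy'
      obtain ⟨z, z1, z2⟩ := hs'.meet (m := T i + 2) (fun h => n1 a na 1 h rfl) (m.conn x y a hx hy)
        hx (by omega) (by omega)
      exact ⟨z, z1, n1 a na z z1, z2⟩
    obtain ⟨z, z1, z2, z3, z4⟩ := mt a a1 a2
    obtain ⟨w, w1, w2, w3, w4⟩ := mt b b1 b2
    have zw : z ≠ w := by
      rintro rfl
      exact hab (Option.some.inj (z1.symm.trans w1))
    have := adj_par (m.adj2 z w a b z1 w1
      (hs'.odd_cut_adj (by omega) z2 w2 zw z3 z4 w3 w4) hab)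
    have := a1.1
    have := b1.1
    omega
  have st : ∀ i, i + 1 < N → T (i + 1) = T i + 2 ∨ T (i + 1) + 2 = T i := by
    intro i hi
    obtain ⟨b, b1, b2, b3, b4⟩ := hs.rail_even (m := 2 * i + 4) (by omega) (by omega)
      (!sd s (2 * i + 4))
    have hb : 2 * i + 4 ≠ b := by
      rintro rfl
      simp at b2
    have k := hs.le_bet (2 * i + 4)
    have a1 : SAdj s (2 * i + 4) (2 * i + 3) :=
      (hs.adj_iff (by omega)).2 ⟨by omega, by omega, by omega, by omega⟩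
    have a2 : SAdj s (2 * i + 4) (2 * (i + 1) + 3) :=
      (hs.adj_iff (by omega)).2 ⟨by omega, by omega, by omega, by omega⟩
    have a3 : SAdj s b (2 * i + 3) :=
      (hs.adj_iff (by omega)).2 ⟨by omega, by omega, by omega, by omega⟩
    have a4 : SAdj s b (2 * (i + 1) + 3) :=
      (hs.adj_iff (by omega)).2 ⟨by omega, by omega, by omega, by omega⟩
    have := far i (by omega) (i + 1) hi _ _ hb a1 a2 a3 a4
    have := far (i + 1) hi i (by omega) _ _ hb a2 a1 a4 a3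
    have := inj i (by omega) (i + 1) hi
    have := T1 i (by omega)
    have := T1 (i + 1) hi
    omega
  have sh : ∀ i, i + 3 < N → s (i + 3) ≠ s (i + 4) →
      ¬ ∃ x, SAdj s' x (T i) ∧ SAdj s' x (T (i + 3)) := by
    rintro i hi hD ⟨x, x1, x2⟩
    obtain ⟨a, a1, a2⟩ := nbr i (by omega) x x1
    obtain ⟨b, b1, b2⟩ := nbr (i + 3) hi x x2
    obtain rfl : a = b := Option.some.inj (a1.symm.trans b1)
    exact hD ((hs.share_iff i).1 ⟨a, a2, b2⟩)
  have f1 := T1 0 (by omega)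
  have f2 := T2 0 (by omega)
  have f3 := T3 0 (by omega)
  have g1 := T1 (N - 1) (by omega)
  have g2 := T2 (N - 1) (by omega)
  have g3 := T3 (N - 1) (by omega)
  refine ⟨(T 0 - 3) / 2, ?_⟩
  rcases affine_of_steps T N inj st with h | h
  · have := h (N - 1) (by omega)
    refine Or.inl ⟨by omega, fun j j1 j2 j3 e => ?_⟩
    obtain ⟨i, rfl⟩ : ∃ i, j = i + 3 := ⟨j - 3, by omega⟩
    refine sh i j2 j3 ?_
    have := (hs'.share_iff ((T 0 - 3) / 2 + i)).2 e
    rwa [h i (by omega), h (i + 3) j2, show T 0 + 2 * i = 2 * ((T 0 - 3) / 2 + i) + 3 by omega,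
      show T 0 + 2 * (i + 3) = 2 * ((T 0 - 3) / 2 + i) + 9 by omega]
  · have := h (N - 1) (by omega)
    refine Or.inr ⟨by omega, by omega, fun j j1 j2 j3 e => ?_⟩
    obtain ⟨i, rfl⟩ : ∃ i, j = i + 3 := ⟨j - 3, by omega⟩
    refine sh i j2 j3 ?_
    have a := h i (by omega)
    have b := h (i + 3) j2
    have b1 := T1 (i + 3) j2
    have b2 := T2 (i + 3) j2
    obtain ⟨x, x1, x2⟩ := (hs'.share_iff ((T 0 - 3) / 2 - (i + 3))).2 (by
      rwa [show (T 0 - 3) / 2 - (i + 3) + 3 = (T 0 - 3) / 2 + 3 - (i + 3) by omega,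
        show (T 0 - 3) / 2 - (i + 3) + 4 = (T 0 - 3) / 2 + 3 - (i + 3) + 1 by omega])
    refine ⟨x, ?_, ?_⟩
    · rwa [show T i = 2 * ((T 0 - 3) / 2 - (i + 3)) + 9 by omega]
    · rwa [show T (i + 3) = 2 * ((T 0 - 3) / 2 - (i + 3)) + 3 by omega]

lemma IndMinor.strips (h : IndMinor (strip s N) (strip s' N')) :
    ∃ φ, IsMod (Γ s) (Set.Iio (2 * N + 3)) tr (Γ s') (Set.Iio (2 * N' + 3)) tr φ := by
  obtain ⟨φ, h1⟩ := h.to_strip
  obtain ⟨ψ, h2⟩ := strip_down s N
  exact ⟨_, h2.trans h1⟩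

end

end Pool.Agent.Lib.NC4b
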