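import Mathlib
import Pool.Agent.Lib.NC4b.Rig
import Pool.Agent.Lib.NC4b.Chain

set_option autoImplicit false

namespace Pool.Agent.Lib.NC4b

/-- a graph modelled in a strip, with a set of vertices avoiding the hub -/
structure Sit {V : Type} (s : ℕ → Bool) (M : ℕ) (G : SimpleGraph V) (ψ : ℕ → Option V)
    (U : Set V) : Prop where
  ok : Ok s
  m : IsMod G Set.univ tr (Γ s) (Set.Iio M) tr ψ
  hU : ∀ u ∈ U, ψ 1 ≠ some u

/-- adjacency to the image of the hub -/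
def mkOf {V : Type} (G : SimpleGraph V) (ψ : ℕ → Option V) (u : V) : Prop :=
  ∀ h, ψ 1 = some h → G.Adj u h

open Classical in
/-- image of a rail -/
noncomputable def r0 {V : Type} (s : ℕ → Bool) (ψ : ℕ → Option V) (U : Set V) (m : ℕ) (b : Bool) :
    Option V :=
  if h : ∃ u, u ∈ U ∧ ∃ x, ψ x = some u ∧ sd s x = b ∧ x ≤ m ∧ m ≤ bet s x then some h.choose
  else none

/-- normalised cut -/
noncomputable def rr {V : Type} (s : ℕ → Bool) (ψ : ℕ → Option V) (U : Set V) (m : ℕ) (b : Bool) :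
    Option V := (r0 s ψ U m b).or (r0 s ψ U m (!b))

/-- both rails alive and distinct -/
def Full {V : Type} (s : ℕ → Bool) (ψ : ℕ → Option V) (U : Set V) (m : ℕ) : Prop :=
  (∀ b, ∃ u, r0 s ψ U m b = some u) ∧ ∀ b, r0 s ψ U m b ≠ r0 s ψ U m (!b)

/-- left end of a branch set -/
noncomputable def al {V : Type} (ψ : ℕ → Option V) (u : V) : ℕ := sInf {x | ψ x = some u}

/-- right end of a branch set -/
noncomputable def be {V : Type} (s : ℕ → Bool) (ψ : ℕ → Option V) (u : V) : ℕ :=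
  sSup (bet s '' {x | ψ x = some u})

variable {V : Type} {s : ℕ → Bool} {M : ℕ} {G : SimpleGraph V} {ψ : ℕ → Option V} {U : Set V}

lemma Sit.r0_iff (h : Sit s M G ψ U) {m : ℕ} {b : Bool} {u : V} : r0 s ψ U m b = some u ↔
    u ∈ U ∧ ∃ x, ψ x = some u ∧ sd s x = b ∧ x ≤ m ∧ m ≤ bet s x := by
  unfold r0
  split_ifs with c
  · simp only [Option.some.injEq]
    constructor
    · rintro rfl
      exact c.choose_spec
    · rintro ⟨-, x, x1, x2, x3, x4⟩
      obtain ⟨-, y, y1, y2, y3, y4⟩ := c.choose_spec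
      obtain rfl := h.ok.cut_uniq (x2.trans y2.symm) x3 x4 y3 y4
      exact Option.some.inj (y1.symm.trans x1)
  · exact ⟨fun e => by simp at e, fun e => absurd ⟨u, e⟩ c⟩

lemma rr_ex {m : ℕ} {u : V} : (∃ b, rr s ψ U m b = some u) ↔ ∃ b, r0 s ψ U m b = some u := by
  unfold rr
  rcases h1 : r0 s ψ U m true with _ | a <;> rcases h2 : r0 s ψ U m false with _ | b <;>
    simp [h1, h2]

lemma full_of_ne {m : ℕ} {b c : Bool} {u v : V} (h1 : rr s ψ U m b = some u)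
    (h2 : rr s ψ U m c = some v) (huv : u ≠ v) : Full s ψ U m := by
  unfold rr at h1 h2
  unfold Full
  rcases e1 : r0 s ψ U m true with _ | a <;> rcases e2 : r0 s ψ U m false with _ | a' <;>
    cases b <;> cases c <;> simp_all
  all_goals exact fun e => huv e.symm

lemma Full.rr_eq {m : ℕ} (h : Full s ψ U m) (b : Bool) : rr s ψ U m b = r0 s ψ U m b := by
  obtain ⟨u, hu⟩ := h.1 b
  simp [rr, hu]

lemma Sit.ne_one (h : Sit s M G ψ U) {u : V} (hu : u ∈ U) {x : ℕ} (hx : ψ x = some u) : x ≠ 1 := by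
  rintro rfl
  exact h.hU u hu hx

lemma Sit.marked (h : Sit s M G ψ U) {u : V} (hu : u ∈ U) {x : ℕ} (hx : ψ x = some u)
    (e : x % 2 = 0) : mkOf G ψ u := fun w hw =>
  h.m.adj2 x 1 u w hx hw (adj_hub e) fun e' => h.hU u hu (e' ▸ hw)

lemma Sit.meet (h : Sit s M G ψ U) {u : V} (hu : u ∈ U) {x y m : ℕ} (hx : ψ x = some u)
    (hy : ψ y = some u) (h1 : x ≤ m) (h2 : m ≤ bet s y) :
    ∃ z, ψ z = some u ∧ z ≤ m ∧ m ≤ bet s z :=
  h.ok.meet (X := {z | ψ z = some u}) (h.hU u hu) (h.m.conn x y u hx hy) hx h1 h2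

lemma Sit.al_mem (h : Sit s M G ψ U) (u : V) : ψ (al ψ u) = some u :=
  Nat.sInf_mem (s := {x | ψ x = some u}) (h.m.surj u trivial)

lemma al_le {u : V} {x : ℕ} (hx : ψ x = some u) : al ψ u ≤ x :=
  Nat.sInf_le (s := {x | ψ x = some u}) hx

lemma Sit.bdd (h : Sit s M G ψ U) (u : V) : BddAbove (bet s '' {x | ψ x = some u}) :=
  (((Set.finite_Iio M).subset fun x hx => (h.m.dom x u hx).1).image _).bddAbove

lemma Sit.le_be (h : Sit s M G ψ U) {u : V} {x : ℕ} (hx : ψ x = some u) : bet s x ≤ be s ψ u :=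
  le_csSup (h.bdd u) ⟨x, hx, rfl⟩

lemma Sit.be_mem (h : Sit s M G ψ U) (u : V) : ∃ x, ψ x = some u ∧ bet s x = be s ψ u :=
  Nat.sSup_mem (Set.Nonempty.image _ (h.m.surj u trivial)) (h.bdd u)

lemma Sit.cut (h : Sit s M G ψ U) (m : ℕ) (u : V) :
    (∃ b, r0 s ψ U m b = some u) ↔ u ∈ U ∧ al ψ u ≤ m ∧ m ≤ be s ψ u := by
  constructor
  · rintro ⟨b, hb⟩
    obtain ⟨hu, x, x1, -, x3, x4⟩ := h.r0_iff.1 hb
    exact ⟨hu, (al_le x1).trans x3, x4.trans (h.le_be x1)⟩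
  · rintro ⟨hu, a1, a2⟩
    obtain ⟨y, y1, y2⟩ := h.be_mem u
    obtain ⟨z, z1, z2, z3⟩ := h.meet hu (h.al_mem u) y1 a1 (y2 ▸ a2)
    exact ⟨_, h.r0_iff.2 ⟨hu, z, z1, rfl, z2, z3⟩⟩

lemma Sit.bad_even (h : Sit s M G ψ U) {m : ℕ} (e : m % 2 = 0)
    (hb : ¬ Good G (mkOf G ψ) (rr s ψ U m)) : Full s ψ U m ∧
      ∀ b c u v, r0 s ψ U m b = some u → r0 s ψ U m c = some v → ¬ G.Adj u v := by
  have a : ∀ b u, rr s ψ U m b = some u → mkOf G ψ u := by
    intro b u hu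
    obtain ⟨c, hc⟩ := rr_ex.1 ⟨b, hu⟩
    obtain ⟨hu, x, x1, -, x3, x4⟩ := h.r0_iff.1 hc
    refine h.marked hu x1 ?_
    by_contra hh
    have := cut_odd (s := s) (by omega) x3 x4
    omega
  simp only [Good, not_and, not_forall] at hb
  obtain ⟨b, c, u, v, h1, h2, h3, h4⟩ := hb a
  have f := full_of_ne h1 h2 h3
  refine ⟨f, fun b' c' u' v' k1 k2 k3 => h4 ?_⟩
  rw [f.rr_eq] at h1 h2
  have n := k3.ne
  have k4 := k3.symm
  clear hb a
  cases b <;> cases c <;> cases b' <;> cases c' <;> simp_all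

lemma Sit.bad_odd (h : Sit s M G ψ U) {m : ℕ} (e : m % 2 = 1)
    (hb : ¬ Good G (mkOf G ψ) (rr s ψ U m)) : ∃ u ∈ U, ψ m = some u ∧ ¬ mkOf G ψ u := by
  by_contra hh
  push Not at hh
  refine hb ⟨fun b u hu => ?_, fun b c u v hu hv huv => ?_⟩
  · obtain ⟨c, hc⟩ := rr_ex.1 ⟨b, hu⟩
    obtain ⟨hu, x, x1, -, x3, x4⟩ := h.r0_iff.1 hc
    rcases Nat.mod_two_eq_zero_or_one x with k | k
    · exact h.marked hu x1 k
    · exact hh u hu (cut_odd k x3 x4 ▸ x1)
  · obtain ⟨b', hb'⟩ := rr_ex.1 ⟨b, hu⟩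
    obtain ⟨c', hc'⟩ := rr_ex.1 ⟨c, hv⟩
    obtain ⟨hu, x, x1, -, x3, x4⟩ := h.r0_iff.1 hb'
    obtain ⟨hv, y, y1, -, y3, y4⟩ := h.r0_iff.1 hc'
    refine h.m.adj2 x y u v x1 y1 (h.ok.odd_cut_adj e (h.ne_one hu x1) (h.ne_one hv y1) ?_ x3 x4
      y3 y4) huv
    rintro rfl
    exact huv (Option.some.inj (x1.symm.trans y1))

lemma Sit.full_odd (h : Sit s M G ψ U) {m : ℕ} (e : m % 2 = 1)
    (hb : ¬ Good G (mkOf G ψ) (rr s ψ U m)) (f : Full s ψ U (m + 1)) : Full s ψ U m := by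
  obtain ⟨u, hu, h1, h2⟩ := h.bad_odd e hb
  obtain ⟨v, hv⟩ := f.1 (!sd s m)
  obtain ⟨hv, y, y1, y2, y3, y4⟩ := h.r0_iff.1 hv
  have y5 : y % 2 = 0 := by
    by_contra hh
    have := cut_odd (s := s) (by omega) y3 y4
    omega
  have y6 : y ≠ m + 1 := by
    rintro rfl
    have : sd s (m + 1) = sd s m := by
      unfold sd
      congr 1
      omega
    simp [this] at y2
  have a1 : r0 s ψ U m (sd s m) = some u := h.r0_iff.2 ⟨hu, m, h1, rfl, le_rfl, h.ok.le_bet m⟩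
  have a2 : r0 s ψ U m (!sd s m) = some v := h.r0_iff.2 ⟨hv, y, y1, y2, by omega, by omega⟩
  exact full_of_ne (b := sd s m) (c := !sd s m) (u := u) (v := v) (by simp [rr, a1])
    (by simp [rr, a2]) fun e' => h2 (e' ▸ h.marked hv y1 y5)

lemma Sit.keep (h : Sit s M G ψ U) {t : ℕ} {b c : Bool} {u : V} (f : Full s ψ U t)
    (f' : Full s ψ U (t + 1)) (h1 : r0 s ψ U t b = some u) (h2 : r0 s ψ U (t + 1) c = some u) :
    c = b := by
  by_contra hne
  obtain rfl : c = !b := by cases b <;> cases c <;> simp_all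
  obtain ⟨v, hv⟩ := f.1 (!b)
  obtain ⟨w, hw⟩ := f'.1 b
  have n1 : v ≠ u := fun e => f.2 b (by rw [h1, hv, e])
  have n2 : w ≠ u := fun e => f'.2 b (by rw [h2, hw, e])
  obtain ⟨hu, x, x1, x2, x3, x4⟩ := h.r0_iff.1 h1
  obtain ⟨-, y, y1, y2, y3, y4⟩ := h.r0_iff.1 h2
  obtain ⟨hv, x', p1, p2, p3, p4⟩ := h.r0_iff.1 hv
  obtain ⟨hw, y', q1, q2, q3, q4⟩ := h.r0_iff.1 hw
  have a1 := (h.ok.step (h.ne_one hu x1) (h.ne_one hw q1) (x2.trans q2.symm) (by
    rintro rfl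
    exact n2 (Option.some.inj (q1.symm.trans x1))) x3 x4 q3 q4).1
  have a2 := (h.ok.step (h.ne_one hv p1) (h.ne_one hu y1) (p2.trans y2.symm) (by
    rintro rfl
    exact n1 (Option.some.inj (p1.symm.trans y1))) p3 p4 y3 y4).1
  rw [a1] at q2
  rw [a2, q2] at y2
  simp at y2

lemma Sit.next (h : Sit s M G ψ U) {t : ℕ} {b : Bool} {u v : V} (h1 : r0 s ψ U t b = some u)
    (h2 : r0 s ψ U (t + 1) b = some v) (huv : u ≠ v) : G.Adj u v := by
  obtain ⟨hu, x, x1, x2, x3, x4⟩ := h.r0_iff.1 h1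
  obtain ⟨hv, y, y1, y2, y3, y4⟩ := h.r0_iff.1 h2
  exact h.m.adj2 x y u v x1 y1 (h.ok.step (h.ne_one hu x1) (h.ne_one hv y1) (x2.trans y2.symm) (by
    rintro rfl
    exact huv (Option.some.inj (x1.symm.trans y1))) x3 x4 y3 y4).2 huv

lemma Sit.link (h : Sit s M G ψ U) {i j : ℕ} (hij : i ≤ j)
    (f : ∀ m, i ≤ m → m ≤ j → Full s ψ U m) :
    Link G {u | u ∈ U ∧ al ψ u ≤ j ∧ i ≤ be s ψ u} (rr s ψ U i) (rr s ψ U j) := by
  classical
  let P : Bool → Set V := fun b => {u | ∃ m, i ≤ m ∧ m ≤ j ∧ r0 s ψ U m b = some u}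
  have up : ∀ u b d m c, i ≤ m → m + d ≤ j → r0 s ψ U m b = some u →
      r0 s ψ U (m + d) c = some u → c = b := by
    intro u b d
    induction d with
    | zero =>
      intro m c m1 m2 a1 a2
      by_contra hne
      obtain rfl : c = !b := by cases b <;> cases c <;> simp_all
      exact (f m m1 m2).2 b (a1.trans a2.symm)
    | succ d ih =>
      intro m c m1 m2 a1 a2
      have e1 := (h.cut _ _).1 ⟨b, a1⟩
      have e2 := (h.cut _ _).1 ⟨c, a2⟩
      obtain ⟨c', hc'⟩ := (h.cut (m + d) u).2 ⟨e1.1, by omega, by omega⟩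
      rw [← ih m c' m1 (by omega) a1 hc']
      exact h.keep (t := m + d) (f _ (by omega) (by omega)) (f _ (by omega) m2) hc' a2
  have dj : ∀ u, u ∈ P true → u ∈ P false → False := by
    rintro u ⟨m, m1, m2, m3⟩ ⟨n, n1, n2, n3⟩
    rcases le_total m n with l | l
    · obtain ⟨d, rfl⟩ := Nat.exists_eq_add_of_le l
      simpa using up u _ d m _ m1 n2 m3 n3
    · obtain ⟨d, rfl⟩ := Nat.exists_eq_add_of_le l
      simpa using up u _ d n _ n1 m2 n3 m3
  have cn : ∀ b v, r0 s ψ U j b = some v → ∀ d m u, i ≤ m → m + d = j → r0 s ψ U m b = some u →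
      RT G (P b) v u := by
    intro b v hv d
    induction d with
    | zero =>
      rintro m u - rfl a
      obtain rfl : v = u := Option.some.inj (hv.symm.trans a)
      exact RT.refl _ _
    | succ d ih =>
      intro m u m1 m2 a
      obtain ⟨w, hw⟩ := (f (m + 1) (by omega) (by omega)).1 b
      have := ih (m + 1) w (by omega) (by omega) hw
      by_cases e : u = w
      · exact e ▸ this
      · exact this.trans (RT.single (h.next a hw e).symm ⟨m + 1, by omega, by omega, hw⟩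
          ⟨m, m1, by omega, a⟩)
  let φ : V → Option V := fun u =>
    if u ∈ P true then r0 s ψ U j true else if u ∈ P false then r0 s ψ U j false else none
  have p1 : ∀ b, ∀ x ∈ P b, φ x = r0 s ψ U j b := by
    intro b x hx
    cases b
    · simp only [φ]
      rw [if_neg fun e => dj x e hx, if_pos hx]
    · exact if_pos hx
  have p2 : ∀ x u, φ x = some u → ∃ b, x ∈ P b := by
    intro x u hx
    by_contra hh
    push Not at hh
    simp [φ, hh] at hx
  have fi := f i le_rfl hij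
  have fj := f j hij le_rfl
  refine ⟨φ, fun x u hx => ?_, fun b => ?_, fun b => ?_⟩
  · obtain ⟨b, hb⟩ := p2 x u hx
    have hu := (p1 b x hb).symm.trans hx
    obtain ⟨m, m1, m2, m3⟩ := hb
    have e1 := (h.cut _ _).1 ⟨b, m3⟩
    refine ⟨⟨e1.1, by omega, by omega⟩, ⟨b, by rw [fj.rr_eq, hu]⟩, ?_⟩
    exact (cn b u hu (j - m) m x m1 (by omega) m3).mono fun z hz => (p1 b z hz).trans hu
  · obtain ⟨u, hu⟩ := fj.1 b
    rw [fj.rr_eq, hu]
    exact (p1 b u ⟨j, hij, le_rfl, hu⟩).trans hu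
  · obtain ⟨u, hu⟩ := fi.1 b
    rw [fi.rr_eq, fj.rr_eq, hu]
    exact p1 b u ⟨i, le_rfl, hij, hu⟩

lemma full_of_two {m : ℕ} (h : wd G (mkOf G ψ) (rr s ψ U m) = 2) : Full s ψ U m := by
  obtain ⟨a, b⟩ := wd_two h
  obtain ⟨u, hu⟩ := Option.ne_none_iff_exists'.1 a
  rcases hv : rr s ψ U m false with _ | v
  · exfalso
    unfold rr at hu hv
    rcases e1 : r0 s ψ U m true with _ | a <;> rcases e2 : r0 s ψ U m false with _ | a' <;> simp_all
  · exact full_of_ne hu hv fun e => b (by rw [hu, hv, e])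

/-- the chain attached to a connected situation -/
noncomputable def Sit.chain (h : Sit s M G ψ U) {L : ℕ}
    (h5 : ∀ i, ∃ m, i < m ∧ m ≤ i + L ∧ Good G (mkOf G ψ) (rr s ψ U m))
    (h6 : ∀ u ∈ U, ∀ v ∈ U, RT G U u v) : Ch L where
  V := V
  G := G
  U := U
  mk' := mkOf G ψ
  α := al ψ
  β := be s ψ
  ρ := rr s ψ U
  c1 u _ := (h.ok.le_bet _).trans (h.le_be (h.al_mem u))
  c2 u hu v hv huv := by
    obtain ⟨x, y, hx, hy, hxy⟩ := h.m.adj1 u trivial v trivial huv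
    have := h.ok.edge_le (h.ne_one hu hx) (h.ne_one hv hy) hxy
    have := al_le hx
    have := h.le_be hy
    omega
  c3 m u := rr_ex.trans (h.cut m u)
  c4 m := by simp [rr, and_comm]
  c5 := h5
  c6 := h6
  c7 i j hij hi hj hm := by
    refine h.link hij.le fun m m1 m2 => ?_
    have ev : ∀ m, i < m → m ≤ j → m % 2 = 0 → Full s ψ U m := fun m m1 m2 m3 => by
      by_cases e : m = j
      · exact e ▸ full_of_two hj
      · exact (h.bad_even m3 (hm m m1 (by omega))).1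
    by_cases e : m = i
    · exact e ▸ full_of_two hi
    by_cases e' : m = j
    · exact e' ▸ full_of_two hj
    rcases Nat.mod_two_eq_zero_or_one m with k | k
    · exact ev m (by omega) m2 k
    · exact h.full_odd k (hm m (by omega) (by omega)) (ev _ (by omega) (by omega) (by omega))

end Pool.Agent.Lib.NC4b
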