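import Mathlib
import Pool.Agent.Lib.NC4b.Conc

set_option autoImplicit false

namespace Pool.Agent.Lib.NC4b

variable {V : Type} {s s0 : ℕ → Bool} {M : ℕ} {G : SimpleGraph V} {ψ : ℕ → Option V} {U : Set V}

lemma bool_not {a b : Bool} (h : a ≠ b) : b = !a := by cases a <;> cases b <;> simp_all

lemma bool_tri {a b c : Bool} (h1 : a ≠ c) (h2 : b ≠ c) : a = b := by
  cases a <;> cases b <;> cases c <;> simp_all

lemma sadj_shift {b n x y : ℕ} (hw : ∀ j ≤ n + 1, s (b + j) = s0 j) (hx : x < 2 * n + 3)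
    (hy : y < 2 * n + 3) (hy' : y ≠ 1) : SAdj s0 x y ↔ SAdj s (x + 2 * b) (y + 2 * b) := by
  have e : (x + 2 * b) / 2 = b + x / 2 := by omega
  constructor
  · rintro ⟨h1, h2, h3 | ⟨h3, h4⟩⟩
    · exact absurd h3 hy'
    refine ⟨by omega, by omega, Or.inr ⟨by omega, fun m m1 m2 => ?_⟩⟩
    obtain ⟨t, rfl⟩ : ∃ t, m = b + t := ⟨m - b, by omega⟩
    rw [e, hw t (by omega), hw _ (by omega)]
    exact h4 t (by omega) (by omega)
  · rintro ⟨h1, h2, h3 | ⟨h3, h4⟩⟩
    · omega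
    refine ⟨by omega, by omega, Or.inr ⟨by omega, fun m m1 m2 => ?_⟩⟩
    have := h4 (b + m) (by omega) (by omega)
    rwa [e, hw m (by omega), hw _ (by omega)] at this

theorem Sit.window (h : Sit s M G ψ U) {b n : ℕ} (hn : 1 ≤ n) (h01 : s0 0 ≠ s0 1)
    (hw : ∀ j ≤ n + 1, s (b + j) = s0 j)
    (bad : ∀ m, 2 * b ≤ m → m ≤ 2 * b + 2 * n + 2 → ¬ Good G (mkOf G ψ) (rr s ψ U m)) :
    ∃ φ, IsMod (Γ s0) (Set.Iio (2 * n + 3)) tr G Set.univ tr φ := by
  have F2 : ∀ z, 2 * b ≤ z → z ≤ 2 * b + 2 * n + 2 → z % 2 = 1 → ∀ u, ψ z = some u →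
      u ∈ U ∧ ¬ mkOf G ψ u ∧ ∀ x, ψ x = some u → x = z := by
    intro z z1 z2 z3 u hu
    obtain ⟨v, hv, v1, v2⟩ := h.bad_odd z3 (bad z z1 z2)
    obtain rfl : u = v := Option.some.inj (hu.symm.trans v1)
    refine ⟨hv, v2, fun x hx => fiber_single h.m (fun y hy => ?_) hx hu⟩
    by_contra hh
    exact v2 (h.marked hv hy (by omega))
  have F1 : ∀ z, 2 * b ≤ z → z ≤ 2 * b + 2 * n + 2 → ∃ u ∈ U, ψ z = some u := by
    intro z z1 z2
    rcases Nat.mod_two_eq_zero_or_one z with k | k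
    · obtain ⟨u, hu⟩ := (h.bad_even k (bad z z1 z2)).1.1 (sd s z)
      obtain ⟨hu, x, x1, x2, x3, x4⟩ := h.r0_iff.1 hu
      exact ⟨u, hu, h.ok.cut_uniq x2 x3 x4 le_rfl (h.ok.le_bet z) ▸ x1⟩
    · obtain ⟨v, hv, v1, -⟩ := h.bad_odd k (bad z z1 z2)
      exact ⟨v, hv, v1⟩
  have F1' : ∀ z, 2 * b ≤ z → z ≤ 2 * b + 2 * n + 2 → ∀ u, ψ z = some u → u ∈ U := by
    intro z z1 z2 u hu
    obtain ⟨v, hv, v1⟩ := F1 z z1 z2
    exact Option.some.inj (hu.symm.trans v1) ▸ hv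
  have F0 : ∃ w, ψ 1 = some w := by
    obtain ⟨v, -, -, v2⟩ := h.bad_odd (m := 2 * b + 1) (by omega) (bad _ (by omega) (by omega))
    by_contra hh
    exact v2 fun w hw => absurd ⟨w, hw⟩ hh
  have F3 : ∀ z z', 2 * b ≤ z → z < z' → z' ≤ 2 * b + 2 * n + 2 → ∀ u, ψ z = some u →
      ψ z' = some u → False := by
    intro z z' z1 z2 z3 u hz hz'
    have hu := F1' z z1 (by omega) u hz
    rcases Nat.mod_two_eq_zero_or_one z with k | k
    swap
    · have := (F2 z z1 (by omega) k u hz).2.2 z' hz'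
      omega
    rcases Nat.mod_two_eq_zero_or_one z' with k' | k'
    swap
    · have := (F2 z' (by omega) z3 k' u hz').2.2 z hz
      omega
    have l := h.ok.le_bet z'
    obtain ⟨w, w1, w2, w3⟩ := h.meet (m := z' - 1) hu hz hz' (by omega) (by omega)
    have w4 : w % 2 = 0 := by
      by_contra hh
      obtain rfl := cut_odd (s := s) (by omega) w2 w3
      exact (F2 _ (by omega) (by omega) (by omega) u w1).2.1 (h.marked hu hz k)
    have w5 := bet_even (s := s) w4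
    have a1 : r0 s ψ U z' (sd s w) = some u := h.r0_iff.2 ⟨hu, w, w1, rfl, by omega, by omega⟩
    have a2 : r0 s ψ U z' (sd s z') = some u := h.r0_iff.2 ⟨hu, z', hz', rfl, le_rfl, l⟩
    have a3 : sd s w ≠ sd s z' := fun e => by
      have := h.ok.cut_uniq (m := z') e (by omega) (by omega) le_rfl l
      omega
    refine (h.bad_even k' (bad z' (by omega) z3)).1.2 (sd s w) ?_
    rw [a1, ← a2, bool_not a3]
  have F3' : ∀ z z', 2 * b ≤ z → z ≤ 2 * b + 2 * n + 2 → 2 * b ≤ z' → z' ≤ 2 * b + 2 * n + 2 →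
      ∀ u, ψ z = some u → ψ z' = some u → z = z' := by
    intro z z' z1 z2 z3 z4 u hz hz'
    rcases lt_trichotomy z z' with l | l | l
    · exact (F3 z z' z1 l z4 u hz hz').elim
    · exact l
    · exact (F3 z' z z3 l z2 u hz' hz).elim
  have F4 : ∀ z z', 2 * b ≤ z → z ≤ 2 * b + 2 * n + 2 → 2 * b ≤ z' → z' ≤ 2 * b + 2 * n + 2 →
      z % 2 = 0 → ∀ w w', ψ z = some w → ψ z' = some w' → G.Adj w w' → ∀ x y, ψ y = some w →
      ψ x = some w' → ¬ SAdj s x y := by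
    intro z z' z1 z2 z3 z4 z5 w w' hz hz' hww x y hy hx hxy
    have hu := F1' z z1 z2 w hz
    have hu' := F1' z' z3 z4 w' hz'
    obtain ⟨a1, a2, a3, a4⟩ := (h.ok.adj_iff (h.ne_one hu hy)).1 hxy
    have l := h.ok.le_bet z
    have l' := h.ok.le_bet z'
    have l'' := h.ok.le_bet y
    have fin : ∀ m, m % 2 = 0 → 2 * b ≤ m → m ≤ 2 * b + 2 * n + 2 →
        (∃ p, ψ p = some w ∧ p ≤ m ∧ m ≤ bet s p) → (∃ p, ψ p = some w' ∧ p ≤ m ∧ m ≤ bet s p) →
        False := by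
      rintro m m1 m2 m3 ⟨p, p1, p2⟩ ⟨q, q1, q2⟩
      exact (h.bad_even m1 (bad m m2 m3)).2 _ _ w w' (h.r0_iff.2 ⟨hu, p, p1, rfl, p2⟩)
        (h.r0_iff.2 ⟨hu', q, q1, rfl, q2⟩) hww
    by_cases c1 : y < 2 * b
    · exact fin (2 * b) (by omega) le_rfl (by omega) (h.meet hu hy hz (by omega) (by omega))
        (h.meet hu' hx hz' (by omega) (by omega))
    by_cases c2 : 2 * b + 2 * n + 2 < y
    · exact fin (2 * b + 2 * n + 2) (by omega) (by omega) le_rfl
        (h.meet hu hz hy (by omega) (by omega)) (h.meet hu' hz' hx (by omega) (by omega))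
    exact (F2 y (by omega) (by omega) a2 w hy).2.1 (h.marked hu hz z5)
  obtain ⟨w0, hw0⟩ := F0
  have ex : ∀ x, ∃ u, (x = 1 → u = w0) ∧ (x ≠ 1 → x < 2 * n + 3 → ψ (x + 2 * b) = some u) := by
    intro x
    by_cases c : x ≠ 1 ∧ x < 2 * n + 3
    · obtain ⟨u, -, hu⟩ := F1 (x + 2 * b) (by omega) (by omega)
      exact ⟨u, fun e => absurd e c.1, fun _ _ => hu⟩
    · exact ⟨w0, fun _ => rfl, fun a b => absurd ⟨a, b⟩ c⟩
  choose e e1 e2 using ex
  have e1 := e1 1 rfl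
  have nh : ∀ x, x ≠ 1 → x < 2 * n + 3 → e x ≠ e 1 := fun x x1 x2 k =>
    h.hU _ (F1' _ (by omega) (by omega) _ (e2 x x1 x2)) (by rw [k, e1, hw0])
  have inj : ∀ x, x < 2 * n + 3 → ∀ y, y < 2 * n + 3 → e x = e y → x = y := by
    intro x hx y hy k
    by_cases c1 : x = 1 <;> by_cases c2 : y = 1
    · omega
    · exact absurd (c1 ▸ k.symm) (nh y c2 hy)
    · exact absurd (c2 ▸ k) (nh x c1 hx)
    · have := F3' _ _ (by omega) (by omega) (by omega) (by omega) _ (e2 x c1 hx) (k ▸ e2 y c2 hy)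
      omega
  have fw : ∀ x, x < 2 * n + 3 → ∀ y, y < 2 * n + 3 → SAdj s0 x y → G.Adj (e x) (e y) := by
    intro x hx y hy k
    have k1 := k.1
    have k2 := k.2.1
    have ne : e x ≠ e y := fun q => by
      have := inj x hx y hy q
      omega
    by_cases c : y = 1
    · subst c
      exact h.m.adj2 _ 1 _ _ (e2 x (by omega) hx) (e1 ▸ hw0) (adj_hub (by omega)) ne
    · exact h.m.adj2 _ _ _ _ (e2 x (by omega) hx) (e2 y c hy)
        (Or.inl ((sadj_shift hw hx hy c).1 k)) ne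
  have face : ∀ x, x < 2 * n + 3 → ∀ y, y < 2 * n + 3 → y % 2 = 1 → y ≠ 1 → G.Adj (e x) (e y) →
      SAdj s0 x y := by
    intro x hx y hy y1 y2 k
    obtain ⟨f1, f2, f3⟩ := F2 _ (by omega) (by omega) (by omega) _ (e2 y y2 hy)
    have x1 : x ≠ 1 := by
      rintro rfl
      refine f2 fun w hw => ?_
      rw [← Option.some.inj (hw0.symm.trans hw), ← e1]
      exact k.symm
    obtain ⟨p, q, hp, hq, hpq⟩ := h.m.adj1 _ trivial _ trivial k
    rw [f3 q hq] at hpq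
    have a := sadj_of_adj hpq (by omega)
    obtain ⟨a1, a2, a3 | ⟨a3, a4⟩⟩ := id a
    · omega
    have a5 : 2 * b ≤ p := by
      by_contra hh
      have b1 := a4 b (by omega) (by omega)
      have b2 := a4 (b + 1) (by omega) (by omega)
      have b3 := hw 0 (by omega)
      have b4 := hw 1 (by omega)
      rw [Nat.add_zero] at b3
      rw [b3] at b1
      rw [b4] at b2
      exact h01 (bool_tri b1 b2)
    rw [F3' p (x + 2 * b) a5 (by omega) (by omega) (by omega) _ hp (e2 x x1 hx)] at a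
    exact (sadj_shift hw hx hy y2).2 a
  obtain ⟨φ, hφ, -⟩ := IsMod.of_inj (G := Γ s0) (G' := G) (U := Set.Iio (2 * n + 3))
    (U' := Set.univ) (mk := tr) (mk' := tr) e inj (fun _ _ => trivial) (by
      intro x hx y hy
      simp only [Set.mem_Iio] at hx hy
      refine ⟨fun k => k.elim (fw x hx y hy) fun k => (fw y hy x hx k).symm, fun k => ?_⟩
      by_cases c1 : y % 2 = 1 ∧ y ≠ 1
      · exact Or.inl (face x hx y hy c1.1 c1.2 k)
      by_cases c2 : x % 2 = 1 ∧ x ≠ 1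
      · exact Or.inr (face y hy x hx c2.1 c2.2 k.symm)
      by_cases c3 : y = 1
      · have : x ≠ 1 := fun q => k.ne (by rw [q, c3])
        exact c3 ▸ adj_hub (by omega)
      by_cases c4 : x = 1
      · exact c4 ▸ (adj_hub (by omega)).symm
      exfalso
      obtain ⟨p, q, hp, hq, hpq⟩ := h.m.adj1 _ trivial _ trivial k
      rcases hpq with a | a
      · exact F4 _ _ (by omega) (by omega) (by omega) (by omega) (by omega) _ _ (e2 y c3 hy)
          (e2 x c4 hx) k.symm p q hq hp a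
      · exact F4 _ _ (by omega) (by omega) (by omega) (by omega) (by omega) _ _ (e2 x c4 hx)
          (e2 y c3 hy) k q p hp hq a) (fun _ _ => Iff.rfl)
  exact ⟨φ, hφ⟩

end Pool.Agent.Lib.NC4b
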