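import Mathlib
import Pool.Agent.Lib.NC4b.Win
import Pool.Agent.Lib.NC4b.Comp

set_option autoImplicit false

namespace Pool.Agent.Lib.NC4b

variable {s : ℕ → Bool}

lemma good_often {n l N : ℕ} (hn : 1 ≤ n) (hl : 0 < l)
    (hr : ∀ a, ∀ r ≤ n + 1, s (a * l + r) = s r) {H : FinGraph} {ψ : ℕ → Option (Fin H.1)}
    {U : Set (Fin H.1)} (h : Sit s N H.2 ψ U) (hX : ¬ IndMinor (strip s n) H) (i : ℕ) :
    ∃ m, i < m ∧ m ≤ i + (2 * l + 2 * n + 2) ∧ Good H.2 (mkOf H.2 ψ) (rr s ψ U m) := by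
  by_contra hh
  push Not at hh
  have d1 := Nat.div_add_mod' (i / 2) l
  have d2 := Nat.mod_lt (i / 2) hl
  have d3 : (i / 2 / l + 1) * l = i / 2 / l * l + l := by ring
  obtain ⟨φ, hφ⟩ := h.window (s0 := s) (b := (i / 2 / l + 1) * l) hn h.ok.h01 (hr _)
    fun m m1 m2 => hh m (by omega) (by omega)
  obtain ⟨χ, hχ⟩ := strip_up s n
  exact hX (IsMod.indMinor (H := strip s n) (hχ.trans hφ))

/-- marked graphs coming from induced minors of strips that omit a fixed strip -/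
def ZM (s : ℕ → Bool) (n : ℕ) : Set MG := {A | ∃ (H : FinGraph) (N : ℕ)
  (ψ : ℕ → Option (Fin H.1)) (U : Set (Fin H.1)), Sit s N H.2 ψ U ∧
    ¬ IndMinor (strip s n) H ∧ A = ⟨Fin H.1, H.2, U, mkOf H.2 ψ⟩}

theorem ZM_wqo {n l : ℕ} (hn : 1 ≤ n) (hl : 0 < l) (hr : ∀ a, ∀ r ≤ n + 1, s (a * l + r) = s r) :
    (ZM s n).PartiallyWellOrderedOn MR := by
  refine comp_wqo _ ?_ ?_ ?_
  · rintro A ⟨H, n, ψ, U, h1, h2, rfl⟩
    exact Set.toFinite (α := Fin H.1) _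
  · rintro A ⟨H, n, ψ, U, h1, h2, rfl⟩ S hS
    exact ⟨H, n, ψ, S, ⟨h1.ok, h1.m, fun u hu => h1.hU u (hS hu)⟩, h2, rfl⟩
  · rw [Set.partiallyWellOrderedOn_iff_exists_lt]
    intro f hf
    choose H N ψ U h1 h2 h3 using fun i => (hf i).1
    have h6 : ∀ i, ∀ u ∈ U i, ∀ v ∈ U i, RT (H i).2 (U i) u v := fun i => by
      have := (hf i).2
      rw [h3 i] at this
      exact this
    obtain ⟨a, b, hab, φ, hφ⟩ := chain_wqo
      (fun i => (h1 i).chain (good_often hn hl hr (h1 i) (h2 i)) (h6 i)) fun i =>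
        ⟨_, fun u _ => le_of_lt ((h1 i).m.dom _ _ ((h1 i).al_mem u)).1⟩
    refine ⟨a, b, hab, ?_⟩
    rw [h3 a, h3 b]
    exact ⟨φ, hφ⟩

theorem Z_wqo (hs : Ok s) {n l : ℕ} (hn : 1 ≤ n) (hl : 0 < l)
    (hr : ∀ a, ∀ r ≤ n + 1, s (a * l + r) = s r) (f : ℕ → FinGraph)
    (hf : ∀ i, ∃ N, IndMinor (f i) (strip s N)) (hX : ∀ i, ¬ IndMinor (strip s n) (f i)) :
    ∃ a b, a < b ∧ IndMinor (f a) (f b) := by
  choose N hN using hf
  choose ψ hψ using fun i => (hN i).to_strip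
  have H2 := (ZM_wqo hn hl hr).prod (Set.finite_univ (α := Bool).partiallyWellOrderedOn (r := Eq))
  obtain ⟨a, b, hab, ⟨φ, hφ⟩, e⟩ := H2.exists_lt (f := fun i =>
    (⟨Fin (f i).1, (f i).2, {u | ψ i 1 ≠ some u}, mkOf (f i).2 (ψ i)⟩, (ψ i 1).isSome))
    fun i => ⟨⟨f i, _, ψ i, _, ⟨hs, hψ i, fun _ hu => hu⟩, hX i, rfl⟩, trivial⟩
  refine ⟨a, b, hab, ?_⟩
  dsimp only at hφ e
  have hub : ∀ i w, ψ i 1 = some w → {u | ψ i 1 ≠ some u} = {u | u ≠ w} ∧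
      mkOf (f i).2 (ψ i) = fun u => (f i).2.Adj u w := by
    intro i w hw
    refine ⟨Set.ext fun u => ?_, funext fun u => ?_⟩
    · simp [hw, eq_comm]
    · simp [mkOf, hw]
  rcases ha : ψ a 1 with _ | w <;> rcases hb : ψ b 1 with _ | w' <;> simp only [ha, hb] at e
  · have : {u | ψ a 1 ≠ some u} = Set.univ := Set.ext fun u => by simp [ha]
    rw [this] at hφ
    exact hφ.indMinor
  · simp at e
  · simp at e
  · rw [(hub a w ha).1, (hub a w ha).2, (hub b w' hb).1, (hub b w' hb).2] at hφ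
    obtain ⟨χ, hχ⟩ := hφ.hub
    exact hχ.indMinor

lemma strip_le {s0 : ℕ → Bool} {n N : ℕ} (hn : n ≤ N) (hw : ∀ j ≤ n + 1, s j = s0 j) :
    IndMinor (strip s0 n) (strip s N) := by
  have key : ∀ x y, x < 2 * n + 3 → y < 2 * n + 3 → (SAdj s0 x y ↔ SAdj s x y) := by
    intro x y hx hy
    by_cases c : y = 1
    · simp [SAdj, c]
    · simpa using sadj_shift (s := s) (s0 := s0) (b := 0) (by simpa using hw) hx hy c
  obtain ⟨φ, hφ, -⟩ := IsMod.of_inj (G := Γ s0) (G' := Γ s) (U := Set.Iio (2 * n + 3))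
    (U' := Set.Iio (2 * N + 3)) (mk := tr) (mk' := tr) id (fun _ _ _ _ e => e)
    (fun u hu => by
      simp only [Set.mem_Iio, id] at hu ⊢
      omega)
    (fun x hx y hy => or_congr (key x y hx hy) (key y x hy hx)) (fun _ _ => Iff.rfl)
  obtain ⟨χ, hχ⟩ := strip_up s0 n
  obtain ⟨ω, hω⟩ := strip_down s N
  exact IsMod.indMinor (H := strip s0 n) (G := strip s N) ((hχ.trans hφ).trans hω)

/-- uniformly recurrent strips generate a well-quasi-ordered class -/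
theorem rec_wqo (hs : Ok s) (hr : ∀ n, ∃ l, 0 < l ∧ ∀ a, ∀ r ≤ n, s (a * l + r) = s r)
    (f : ℕ → FinGraph) (hf : ∀ i, ∃ N, IndMinor (f i) (strip s N)) :
    ∃ a b, a < b ∧ IndMinor (f a) (f b) := by
  obtain ⟨N, hN⟩ := hf 0
  have h0 := hN.trans (strip_le (s := s) (Nat.le_succ N) fun _ _ => rfl)
  by_cases c : ∃ i, IndMinor (strip s (N + 1)) (f (i + 1))
  · obtain ⟨i, hi⟩ := c
    exact ⟨0, i + 1, Nat.succ_pos i, h0.trans hi⟩
  obtain ⟨l, hl, h⟩ := hr (N + 1 + 1)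
  obtain ⟨a, b, hab, h⟩ := Z_wqo hs (n := N + 1) (by omega) hl h (fun i => f (i + 1))
    (fun i => hf _) fun i hi => c ⟨i, hi⟩
  exact ⟨a + 1, b + 1, by omega, h⟩

end Pool.Agent.Lib.NC4b
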