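import Mathlib
import Pool.Agent.Lib.NC4b.Rec

set_option autoImplicit false

namespace Pool.Agent.Lib.NC4b

/-- a periodic side sequence with a hole -/
structure St where
  l : ℕ
  t : ℕ
  s : ℕ → Bool
  per : Function.Periodic s l
  t6 : 6 ≤ t
  tl : t < l
  t3 : t % 3 = 0
  l3 : l % 3 = 0
  st : s t = false
  s3 : ∀ x, s x = true → x % 3 = 0
  s0 : s 0 = true

lemma ok_of {s : ℕ → Bool} (s3 : ∀ x, s x = true → x % 3 = 0) (s0 : s 0 = true)
    (h : ∀ j, ∃ t, j < t ∧ s t = true) : Ok s := by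
  have f : ∀ x, x % 3 ≠ 0 → s x = false := fun x hx => by
    by_contra hh
    exact hx (s3 x (by simpa using hh))
  refine ⟨by simp [s0, f 1 (by omega)], fun j b => ?_⟩
  cases b
  · exact ⟨3 * j + 1, by omega, f _ (by omega)⟩
  · exact h j

lemma St.add (σ : St) (a x : ℕ) : σ.s (a * σ.l + x) = σ.s x := by
  rw [add_comm]
  exact σ.per.nat_mul a x

lemma St.ok (σ : St) : Ok σ.s := ok_of σ.s3 σ.s0 fun j => ⟨(j + 1) * σ.l + 0, by
  have : j + 1 ≤ (j + 1) * σ.l := Nat.le_mul_of_pos_right _ (by have := σ.tl; omega)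
  omega, by rw [σ.add, σ.s0]⟩

/-- filling some of the holes -/
def St.md (σ : St) (n x : ℕ) : Bool := σ.s x || decide (x % ((n + 2) * σ.l) = σ.t)

lemma St.two_le (σ : St) (n : ℕ) : 2 * σ.l ≤ (n + 2) * σ.l := Nat.mul_le_mul_right _ (by omega)

lemma St.P3 (σ : St) (n : ℕ) : 3 ∣ (n + 2) * σ.l :=
  Dvd.dvd.mul_left (Nat.dvd_of_mod_eq_zero σ.l3) _

lemma St.md3 (σ : St) (n x : ℕ) (h : σ.md n x = true) : x % 3 = 0 := by
  simp only [St.md, Bool.or_eq_true, decide_eq_true_eq] at h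
  rcases h with h | h
  · exact σ.s3 x h
  · rw [← Nat.mod_mod_of_dvd x (σ.P3 n), h, σ.t3]

/-- the next state -/
def St.next (σ : St) (n : ℕ) : St where
  l := 3 * ((n + 2) * σ.l)
  t := σ.t + σ.l + 2 * ((n + 2) * σ.l)
  s := σ.md n
  per x := by
    unfold St.md
    rw [Nat.add_mul_mod_self_right, show x + 3 * ((n + 2) * σ.l) = (3 * (n + 2)) * σ.l + x by ring,
      σ.add]
  t6 := by
    have := σ.t6
    omega
  tl := by
    have := σ.tl
    have := σ.two_le n
    omega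
  t3 := by
    have := σ.t3
    have := σ.l3
    have := σ.P3 n
    omega
  l3 := by omega
  st := by
    have := σ.tl
    have := σ.two_le n
    unfold St.md
    rw [Nat.add_mul_mod_self_right, Nat.mod_eq_of_lt (by omega),
      show σ.t + σ.l + 2 * ((n + 2) * σ.l) = (1 + 2 * (n + 2)) * σ.l + σ.t by ring, σ.add, σ.st]
    simp only [Bool.false_or, decide_eq_false_iff_not]
    omega
  s3 := σ.md3 n
  s0 := by simp [St.md, σ.s0]

/-- the antichain attached to a state -/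
def St.B (σ : St) (n : ℕ) : FinGraph := strip (σ.md n) (σ.t + (n + 2) * σ.l + σ.l)

lemma St.hit (σ : St) {n n' a a' : ℕ} (f : ℕ → ℕ) (h1 : σ.s a = false) (h2 : σ.md n a = true)
    (inj : ∀ x y, a ≤ x → x < a + σ.l → a ≤ y → y < a + σ.l → f x = f y → x = y)
    (h3 : ∀ x, a ≤ x → x < a + σ.l → a' ≤ f x ∧ f x < a' + σ.l)
    (h4 : ∀ x, a ≤ x → x < a + σ.l → σ.md n x = true → σ.md n' (f x) = true)
    (h5 : a' + σ.l ≤ σ.t + (n' + 2) * σ.l + σ.l) :
    ∃ y, a' ≤ y ∧ y < a' + σ.l ∧ (y = σ.t ∨ y = σ.t + (n' + 2) * σ.l) := by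
  by_contra hh
  push Not at hh
  have l0 : 0 < σ.l := by
    have := σ.tl
    omega
  have pp : Function.Periodic (fun x => σ.s x = true) σ.l := fun x => by simp only [σ.per x]
  have c1 := Nat.filter_Ico_card_eq_of_periodic a σ.l _ pp
  have c2 := Nat.filter_Ico_card_eq_of_periodic a' σ.l _ pp
  have mem : ∀ x ∈ insert a ((Finset.Ico a (a + σ.l)).filter fun x => σ.s x = true),
      a ≤ x ∧ x < a + σ.l ∧ σ.md n x = true := by
    intro x hx
    rcases Finset.mem_insert.1 hx with rfl | hx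
    · exact ⟨le_rfl, by omega, h2⟩
    · simp only [Finset.mem_filter, Finset.mem_Ico] at hx
      exact ⟨hx.1.1, hx.1.2, by simp [St.md, hx.2]⟩
  have := Finset.card_le_card_of_injOn
    (s := insert a ((Finset.Ico a (a + σ.l)).filter fun x => σ.s x = true))
    (t := (Finset.Ico a' (a' + σ.l)).filter fun x => σ.s x = true) f (by
      intro x hx
      obtain ⟨x1, x2, x3⟩ := mem x hx
      have k1 := h3 x x1 x2
      have k2 := h4 x x1 x2 x3
      simp only [St.md, Bool.or_eq_true, decide_eq_true_eq] at k2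
      simp only [Finset.coe_filter, Finset.mem_Ico, Set.mem_ofPred_eq]
      refine ⟨k1, k2.resolve_right fun e => ?_⟩
      have k3 := hh _ k1.1 k1.2
      have k4 := Nat.div_add_mod (f x) ((n' + 2) * σ.l)
      have k5 := σ.two_le n'
      rcases hq : f x / ((n' + 2) * σ.l) with _ | _ | q <;> rw [hq] at k4
      · omega
      · omega
      · have : (n' + 2) * σ.l * (q + 1 + 1) = (n' + 2) * σ.l * q + 2 * ((n' + 2) * σ.l) := by ring
        omega)
    (fun x hx y hy e => inj x y (mem x hx).1 (mem x hx).2.1 (mem y hy).1 (mem y hy).2.1 e)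
  rw [Finset.card_insert_of_notMem (by simp [h1]), c1, c2] at this
  omega

lemma St.mid (σ : St) {n y : ℕ} (h1 : σ.md n y ≠ σ.md n (y + 1))
    (h2 : σ.md n (y + 1) ≠ σ.md n (y + 1 + 1)) : σ.md n (y + 1) = true := by
  by_contra hh
  have a := σ.md3 n y (by simpa [hh] using h1)
  have b := σ.md3 n (y + 1 + 1) (by simpa [hh] using h2.symm)
  omega

theorem St.anti (σ : St) {n n' : ℕ} (h : IndMinor (σ.B n) (σ.B n')) : n = n' := by
  obtain ⟨φ, m⟩ := IndMinor.strips h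
  have t6 := σ.t6
  have tl := σ.tl
  have p1 := σ.two_le n
  have p2 := σ.two_le n'
  have ch : ∀ x, σ.md n (x + 1) = true →
      σ.md n x ≠ σ.md n (x + 1) ∧ σ.md n (x + 1) ≠ σ.md n (x + 1 + 1) := by
    intro x hx
    have := σ.md3 n _ hx
    constructor
    · intro e
      have := σ.md3 n _ (e.trans hx)
      omega
    · intro e
      have := σ.md3 n _ (e.symm.trans hx)
      omega
  have a1 : σ.md n σ.t = true := by simp [St.md, Nat.mod_eq_of_lt (show σ.t < (n + 2) * σ.l by omega)]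
  have a2 : σ.md n (σ.t + (n + 2) * σ.l) = true := by
    simp [St.md, Nat.mod_eq_of_lt (show σ.t < (n + 2) * σ.l by omega)]
  have a3 : σ.s (σ.t + (n + 2) * σ.l) = false := by rw [add_comm, σ.add, σ.st]
  suffices (n + 2) * σ.l < (n' + 2) * σ.l + σ.l ∧ (n' + 2) * σ.l < (n + 2) * σ.l + σ.l by
    rw [← Nat.succ_mul, ← Nat.succ_mul] at this
    have b1 := lt_of_mul_lt_mul_right this.1 (Nat.zero_le _)
    have b2 := lt_of_mul_lt_mul_right this.2 (Nat.zero_le _)
    omega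
  obtain ⟨c, ⟨h1, h2⟩ | ⟨h1, h1', h2⟩⟩ := rig (σ.next n).ok (σ.next n').ok m (i0 := σ.t - 4)
    (by omega) (by
      have := (ch (σ.t - 1) (by rwa [show σ.t - 1 + 1 = σ.t by omega])).1
      rwa [show σ.t - 4 + 3 = σ.t - 1 by omega, show σ.t - 4 + 4 = σ.t - 1 + 1 by omega])
  · have tr : ∀ x, σ.t ≤ x → x < σ.t + (n + 2) * σ.l + σ.l → σ.md n x = true →
        σ.md n' (c + x) = true := by
      intro x x1 x2 x3
      obtain ⟨x, rfl⟩ : ∃ y, x = y + 1 := ⟨x - 1, by omega⟩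
      exact σ.mid (h2 x (by omega) (by omega) (ch x x3).1) (h2 (x + 1) (by omega) x2 (ch x x3).2)
    obtain ⟨y, y1, y2, y3⟩ := σ.hit (n' := n') (a' := c + σ.t) (c + ·) σ.st a1
      (fun _ _ _ _ _ _ e => by omega) (fun _ _ _ => by omega)
      (fun x x1 x2 => tr x x1 (by omega)) (by omega)
    obtain ⟨z, z1, z2, z3⟩ := σ.hit (n' := n') (a' := c + (σ.t + (n + 2) * σ.l)) (c + ·) a3 a2
      (fun _ _ _ _ _ _ e => by omega) (fun _ _ _ => by omega)
      (fun x x1 x2 => tr x (by omega) x2) (by omega)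
    omega
  · have tr : ∀ x, σ.t ≤ x → x < σ.t + (n + 2) * σ.l + σ.l → σ.md n x = true →
        σ.md n' (c + 4 - x) = true := by
      intro x x1 x2 x3
      obtain ⟨x, rfl⟩ : ∃ y, x = y + 1 := ⟨x - 1, by omega⟩
      have b1 := h2 x (by omega) (by omega) (ch x x3).1
      have b2 := h2 (x + 1) (by omega) x2 (ch x x3).2
      rw [show c + 3 - x = c + 3 - (x + 1) + 1 by omega] at b1
      rw [show c + 4 - (x + 1) = c + 3 - (x + 1) + 1 by omega]
      exact σ.mid b2 b1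
    obtain ⟨y, y1, y2, y3⟩ := σ.hit (n' := n') (a' := c + 5 - (σ.t + σ.l)) (c + 4 - ·) σ.st a1
      (fun _ _ _ _ _ _ e => by omega) (fun _ _ _ => by omega)
      (fun x x1 x2 => tr x x1 (by omega)) (by omega)
    obtain ⟨z, z1, z2, z3⟩ := σ.hit (n' := n') (a' := c + 5 - (σ.t + (n + 2) * σ.l + σ.l))
      (c + 4 - ·) a3 a2 (fun _ _ _ _ _ _ e => by omega) (fun _ _ _ => by omega)
      (fun x x1 x2 => tr x (by omega) x2) (by omega)
    omega

/-- the first state -/
def st0 : St where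
  l := 9
  t := 6
  s x := decide (x % 9 = 0)
  per x := by simp
  t6 := le_rfl
  tl := by omega
  t3 := rfl
  l3 := rfl
  st := rfl
  s3 x h := by
    simp only [decide_eq_true_eq] at h
    omega
  s0 := rfl

lemma seq_facts (σ : ℕ → St) (ν : ℕ → ℕ) (h : ∀ j, σ (j + 1) = (σ j).next (ν j)) (j i : ℕ)
    (hji : j ≤ i) : (σ j).l ∣ (σ i).l ∧ (σ i).t % (σ j).l = (σ j).t ∧
      (∀ x, x % (σ j).l ≠ (σ j).t → (σ i).s x = (σ j).s x) ∧
      ∀ x, (σ j).s x = true → (σ i).s x = true := by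
  induction i, hji using Nat.le_induction with
  | base => exact ⟨dvd_rfl, Nat.mod_eq_of_lt (σ j).tl, fun _ _ => rfl, fun _ h => h⟩
  | succ i _ ih =>
    obtain ⟨a1, a2, a3, a4⟩ := ih
    have d : (σ j).l ∣ (ν i + 2) * (σ i).l := a1.mul_left _
    rw [h i]
    refine ⟨d.mul_left _, ?_, fun x hx => ?_, fun x hx => ?_⟩
    · show ((σ i).t + (σ i).l + 2 * ((ν i + 2) * (σ i).l)) % (σ j).l = _
      rw [add_assoc, Nat.add_mod, Nat.mod_eq_zero_of_dvd (a1.add (d.mul_left 2)), add_zero,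
        Nat.mod_mod, a2]
    · show (σ i).md (ν i) x = _
      unfold St.md
      rw [a3 x hx, decide_eq_false, Bool.or_false]
      intro e
      exact hx (by rw [← Nat.mod_mod_of_dvd x d, e, a2])
    · show (σ i).md (ν i) x = _
      simp [St.md, a4 x hx]

/-- the limit Toeplitz sequence -/
theorem exists_limit (σ : ℕ → St) (ν : ℕ → ℕ) (h : ∀ j, σ (j + 1) = (σ j).next (ν j)) :
    ∃ s, Ok s ∧ (∀ n, ∃ l, 0 < l ∧ ∀ a, ∀ r ≤ n, s (a * l + r) = s r) ∧
      ∀ j, ∃ N, IndMinor ((σ j).B (ν j)) (strip s N) := by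
  classical
  let s : ℕ → Bool := fun x => decide (∃ j, (σ j).s x = true)
  have e : ∀ j x, x % (σ j).l ≠ (σ j).t → s x = (σ j).s x := by
    intro j x hx
    rw [Bool.eq_iff_iff]
    simp only [s, decide_eq_true_eq]
    refine ⟨fun ⟨i, hi⟩ => ?_, fun hj => ⟨j, hj⟩⟩
    rcases le_total i j with l | l
    · exact (seq_facts σ ν h i j l).2.2.2 x hi
    · rw [← (seq_facts σ ν h j i l).2.2.1 x hx, hi]
  have e' : ∀ j x, x < (σ j).t → ∀ a, s (a * (σ j).l + x) = (σ j).s x := by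
    intro j x hx a
    have := (σ j).tl
    rw [e j, (σ j).add]
    rw [Nat.mul_add_mod_self_right, Nat.mod_eq_of_lt (by omega)]
    omega
  have gt : ∀ j, j < (σ j).t := by
    intro j
    induction j with
    | zero =>
      have := (σ 0).t6
      omega
    | succ j ih =>
      have := (σ j).tl
      rw [h j]
      show j + 1 < (σ j).t + (σ j).l + _
      omega
  refine ⟨s, ok_of ?_ ?_ fun j => ?_, fun n => ⟨(σ n).l, ?_, fun a r hr => ?_⟩,
    fun j => ⟨_, strip_le le_rfl fun x hx => ?_⟩⟩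
  · intro x hx
    simp only [s, decide_eq_true_eq] at hx
    obtain ⟨j, hj⟩ := hx
    exact (σ j).s3 x hj
  · simpa only [s, decide_eq_true_eq] using ⟨0, (σ 0).s0⟩
  · obtain ⟨t, t1, t2⟩ := (σ 0).ok.inf j true
    exact ⟨t, t1, by simpa only [s, decide_eq_true_eq] using ⟨0, t2⟩⟩
  · have := (σ n).tl
    omega
  · have := gt n
    have b := e' n r (by omega) 0
    rw [zero_mul, zero_add] at b
    rw [e' n r (by omega), b]
  · have := (σ j).two_le (ν j)
    have := (σ j).tl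
    have := (σ j).t6
    have b := e' (j + 1) x (by
      rw [h j]
      show x < (σ j).t + (σ j).l + 2 * ((ν j + 2) * (σ j).l)
      omega) 0
    rw [zero_mul, zero_add, h j] at b
    exact b

lemma finite_size (N : ℕ) : {G : FinGraph | G.1 ≤ N}.Finite := by
  refine (Set.Finite.biUnion (Set.finite_Iic N) fun n _ =>
    Set.finite_range (fun G : SimpleGraph (Fin n) => (⟨n, G⟩ : FinGraph))).subset fun G hG => ?_
  exact Set.mem_biUnion (x := G.1) hG ⟨G.2, rfl⟩

theorem no_family (A : Set FinGraph) :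
    ∃ F : Set FinGraph, (∀ G ∈ F, Planar G) ∧ (∀ G ∈ F, ∀ H, IndMinor H G → H ∈ F) ∧
      ¬ ((∀ g : ℕ → FinGraph, (∀ i, g i ∈ F) → ∃ i j, i < j ∧ IndMinor (g i) (g j)) ↔
        (F ∩ A).Finite) := by
  by_contra hh
  simp only [not_exists, not_and, not_not] at hh
  have big : ∀ (σ : St) (K : ℕ), ∃ n, ∃ G ∈ A, IndMinor G (σ.B n) ∧ K < G.1 := by
    intro σ K
    by_contra c
    push Not at c
    obtain ⟨i, j, hij, h⟩ := (hh {H | ∃ n, IndMinor H (σ.B n)}
      (fun G ⟨n, h⟩ => (σ.next n).ok.planar h) fun G ⟨n, h⟩ H h' => ⟨n, h'.trans h⟩).2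
      ((finite_size K).subset fun G ⟨⟨n, h⟩, hG⟩ => c n G hG h) σ.B fun i => ⟨i, IndMinor.refl _⟩
    exact hij.ne (σ.anti h)
  choose ν g g1 g2 g3 using big
  let σ : ℕ → St := fun j => Nat.rec st0 (fun j τ => τ.next (ν τ j)) j
  obtain ⟨s, hs, hr, hB⟩ := exists_limit σ (fun j => ν (σ j) j) fun _ => rfl
  have fin := (hh {H | ∃ N, IndMinor H (strip s N)} (fun G ⟨n, h⟩ => hs.planar h)
    fun G ⟨n, h⟩ H h' => ⟨n, h'.trans h⟩).1 (rec_wqo hs hr)
  obtain ⟨K, hK⟩ := (fin.image fun G => G.1).bddAbove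
  obtain ⟨N, hN⟩ := hB K
  exact (g3 (σ K) K).not_ge (hK ⟨_, ⟨⟨N, (g2 _ _).trans hN⟩, g1 _ _⟩, rfl⟩)

end Pool.Agent.Lib.NC4b
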